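import Pool.Agent.X312.CH.Gap

/-!
# The gap law for numerically trivial cycles
-/

open CategoryTheory AlgebraicGeometry

universe u v

namespace Pool.Agent.X312.CH

open Module Polynomial
open Pool.Agent.H914 Pool.Agent.H914.VarClass Pool.Agent.H914.VarClass.Obj
  Pool.Agent.H914.WeilCohomology Pool.Agent.Y133.Half Pool.Agent.Y133.Half.Sys
  Pool.Agent.H281R3.HT Pool.Agent.W536.RR
open Pool.Agent.W492.BB (TheoryData IsTheory prodMap u12 u13)
open Pool.Agent.W550.Corr (HasIso dg comp_eq_extR extR_comp extR_graph)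
open Pool.Agent.X312.RL

variable {k : Type u} [Field k] {𝒱 : VarClass k} {ops : CycleOps 𝒱}
  {W : WeilCohomology.{u, v} ops} {C : TheoryData.{u, 0, 0} 𝒱 ℚ} (𝓐 : CycleRings W C)
  {X Y Z P : 𝒱.Obj}

/-- Numerically trivial classes are combinations of classes of numerically trivial cycles. -/
lemma num_le_span (Z : 𝒱.Obj) :
    (algSys W).Num Z ≤ Submodule.span W.K (𝓐.cl Z '' (𝓐.numTriv Z)) := by
  classical
  intro c hc
  have h1 : c ∈ Submodule.span W.K (Set.range (𝓐.cl Z)) := by rw [span_cl]; exact hc.1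
  obtain ⟨f, hf⟩ := (Finsupp.mem_span_range_iff_exists_finsupp).1 h1
  let B := Basis.ofVectorSpace ℚ W.K
  let I : Finset (Basis.ofVectorSpaceIndex ℚ W.K) :=
    f.support.biUnion (fun a => (B.repr (f a)).support)
  let a' : Basis.ofVectorSpaceIndex ℚ W.K → C.A Z := fun i =>
    ∑ a ∈ f.support, (B.repr (f a) i) • a
  have hsm : ∀ (r : ℚ) (x : W.K), r • x = algebraMap ℚ W.K r * x := fun r x =>
    Algebra.smul_def r x
  have hfa : ∀ a ∈ f.support, ∑ i ∈ I, (B.repr (f a) i) • B i = f a := by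
    intro a ha
    have h2 := B.linearCombination_repr (f a)
    rw [Finsupp.linearCombination_apply, Finsupp.sum] at h2
    refine (Finset.sum_subset ?_ ?_).symm.trans h2
    · intro i hi
      exact Finset.mem_biUnion.2 ⟨a, ha, hi⟩
    · intro i _ hi
      rw [Finsupp.notMem_support_iff.1 hi, zero_smul]
  have hc' : c = ∑ i ∈ I, B i • 𝓐.cl Z (a' i) := by
    have h3 : ∀ i, B i • 𝓐.cl Z (a' i) =
        ∑ a ∈ f.support, ((B.repr (f a) i) • B i) • 𝓐.cl Z a := by
      intro i
      change B i • 𝓐.cl Z (∑ a ∈ f.support, (B.repr (f a) i) • a) = _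
      rw [map_sum, Finset.smul_sum]
      refine Finset.sum_congr rfl fun a _ => ?_
      rw [cl_smul, smul_smul, hsm, mul_comm]
    rw [Finset.sum_congr rfl fun i _ => h3 i, Finset.sum_comm, ← hf, Finsupp.sum]
    refine Finset.sum_congr rfl fun a ha => ?_
    rw [← Finset.sum_smul, hfa a ha]
  have hnum : ∀ i ∈ I, a' i ∈ 𝓐.numTriv Z := by
    intro i hi b
    change W.tr Z (𝓐.cl Z (a' i * b)) = 0
    choose q hq using fun j => tr_rat 𝓐 (a' j * b)
    have h4 : ∑ j ∈ I, q j • B j = 0 := by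
      have h5 := hc.2 (𝓐.cl Z b) (cl_alg 𝓐 b)
      rw [hc', Finset.sum_mul, map_sum] at h5
      rw [← h5]
      refine Finset.sum_congr rfl fun j _ => ?_
      rw [smul_mul_assoc, map_smul, ← map_mul, hq j, hsm, smul_eq_mul, mul_comm]
      rfl
    have h6 := linearIndependent_iff'.1 B.linearIndependent I q h4 i hi
    rw [hq i, h6, Rat.cast_zero]
  rw [hc']
  refine Submodule.sum_mem _ fun i hi => Submodule.smul_mem _ _ (Submodule.subset_span ?_)
  exact ⟨a' i, hnum i hi, rfl⟩

/-- The dimension of the span of the classes of a space of cycles. -/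
lemma finrank_span_le (N : Submodule ℚ (C.A Z)) [hN : FiniteDimensional ℚ N] :
    finrank W.K (Submodule.span W.K (𝓐.cl Z '' N)) ≤ finrank ℚ N := by
  let b := Module.finBasis ℚ N
  have h : Submodule.span W.K (𝓐.cl Z '' N) ≤
      Submodule.span W.K (Set.range fun i => 𝓐.cl Z (b i : C.A Z)) := by
    rw [Submodule.span_le]
    rintro _ ⟨a, ha, rfl⟩
    have h1 := b.sum_repr ⟨a, ha⟩
    have h2 : a = ∑ i, (b.repr ⟨a, ha⟩ i) • (b i : C.A Z) := by
      have := congrArg (Submodule.subtype N) h1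
      rw [map_sum] at this
      exact this.symm
    have h3 : 𝓐.cl Z a ∈ Submodule.span W.K (Set.range fun i => 𝓐.cl Z (b i : C.A Z)) := by
      rw [h2, map_sum]
      refine Submodule.sum_mem _ fun i _ => ?_
      rw [cl_smul]
      exact Submodule.smul_mem _ _ (Submodule.subset_span ⟨i, rfl⟩)
    exact h3
  refine (Submodule.finrank_mono h).trans ?_
  refine (finrank_range_le_card _).trans ?_
  rw [Fintype.card_fin]

lemma finrank_num_le_numTriv (Z : 𝒱.Obj) [hN : FiniteDimensional ℚ (𝓐.numTriv Z)] :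
    finrank W.K ((algSys W).Num Z) ≤ finrank ℚ (𝓐.numTriv Z) :=
  (Submodule.finrank_mono (num_le_span 𝓐 Z)).trans (finrank_span_le 𝓐 _)

lemma numTriv_stable : IsStable C 𝓐.numTriv where
  mul {X} a z hz b := by
    change W.tr X (𝓐.cl X (a * z * b)) = 0
    have h1 : a * z * b = z * (a * b) := by
      have := 𝓐.comm a z
      change a * z = z * a at this
      rw [this, mul_assoc]
    rw [h1]
    exact hz (a * b)
  pull {X Y} f z hz := by
    change 𝓐.NumTrivial _
    rw [numTrivial_iff, 𝓐.cl_pull]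
    exact Num.map f ((numTrivial_iff 𝓐 z).1 hz)
  push {X Y} f z hz := by
    change 𝓐.NumTrivial _
    rw [numTrivial_iff, 𝓐.cl_push]
    exact Num.push f ((numTrivial_iff 𝓐 z).1 hz)

/-- **The gap law for numerically trivial cycles.** -/
theorem num_gap (X Y : 𝒱.Obj) (hY : (1 : W.H Y) ≠ 0) (hnil : ∀ m, 𝓐.NumNilpotent (pw X m)) (m : ℕ) :
    (∀ a : C.A (Y.prod (pw X m)), 𝓐.NumTrivial a → a = 0) ∨
    ∀ n, DimAtLeast (𝓐.numTriv (Y.prod (pw X n)))
        ((1 - cst (finrank W.K (W.H X)) (m + 1) 2 n) * cycRank ops (pw X n)) := by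
  by_cases hne : ∀ a : C.A (Y.prod (pw X m)), 𝓐.NumTrivial a → a = 0
  · exact Or.inl hne
  right
  intro n hfd
  have hI := 𝓐.isTheory
  have hbot : IsStable C (fun _ => (⊥ : Submodule ℚ (C.A _))) := by
    refine ⟨?_, ?_, ?_⟩
    · intro X a z hz
      rw [Submodule.mem_bot] at hz ⊢
      change a * z = 0
      rw [hz, mul_zero]
    · intro X Y f z hz
      rw [Submodule.mem_bot] at hz ⊢
      change C.pull f z = 0
      rw [hz, map_zero]
    · intro X Y f z hz
      rw [Submodule.mem_bot] at hz ⊢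
      change C.push f z = 0
      rw [hz, map_zero]
  have hne' : ¬ 𝓐.numTriv (Y.prod (pw X m)) ≤ ⊥ := by
    intro h
    exact hne fun a ha => (Submodule.mem_bot ℚ).1 (h ha)
  have hc := cst_nonneg (finrank W.K (W.H X)) (m + 1) (ρ := 2) (by norm_num) n
  have ha : (0 : ℝ) ≤ cycRank ops (pw X n) := Nat.cast_nonneg _
  rcases gap 𝓐 (N' := fun _ => ⊥) (N := 𝓐.numTriv) X Y hnil hbot (numTriv_stable 𝓐) hne' n
    with h | h
  · have e : Gr (fun _ => (⊥ : Submodule ℚ (C.A _))) 𝓐.numTriv (Y.prod (pw X n)) ≃ₗ[ℚ]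
        𝓐.numTriv (Y.prod (pw X n)) := by
      refine Submodule.quotEquivOfEqBot _ ?_
      rw [eq_bot_iff]
      intro c hc
      rw [Submodule.mem_comap, Submodule.mem_bot] at hc
      rw [Submodule.mem_bot]
      exact Subtype.ext hc
    have h1 := h (Module.Finite.equiv e.symm)
    rwa [e.finrank_eq] at h1
  · have h1 : (2 : ℝ) * (algSys W).a (pw X n) ≤ finrank W.K ((algSys W).C (pw X n)) := by
      rw [numDim_eq_cycRank]; exact h
    have h2 := (algSys W).a_le_num h1
    have h3 := (algSys W).finrank_num_le (Z := pw X n) hY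
    have h4 := finrank_num_le_numTriv 𝓐 (Y.prod (pw X n))
    have h5 : (cycRank ops (pw X n) : ℝ) ≤ finrank ℚ (𝓐.numTriv (Y.prod (pw X n))) := by
      rw [← numDim_eq_cycRank W]
      exact_mod_cast h2.trans (h3.trans h4)
    nlinarith

end Pool.Agent.X312.CH
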