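import Pool.Agent.X312.CH.Pub
import Pool.Agent.X312.CH.Num

/-!
# Comparison of the two definitions
-/

open CategoryTheory AlgebraicGeometry

universe u v w

namespace Pool.Agent.X312.CH

open Module
open Pool.Agent.H914 Pool.Agent.H914.VarClass Pool.Agent.H914.VarClass.Obj
  Pool.Agent.H914.WeilCohomology Pool.Agent.W492.BB Pool.Agent.Y133.Half
  Pool.Agent.Y133.Half.Sys Pool.Agent.H281R3.HT

variable {k : Type u} [Field k] {𝒱 : VarClass k} {ops : CycleOps 𝒱}
  {W : WeilCohomology.{u, v} ops} {C : TheoryData.{u, 0, 0} 𝒱 ℚ} (𝓣 : CycleTheory W C)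
  {X Y Z : 𝒱.Obj}

/-- The same data with bundled homomorphisms. -/
noncomputable def CycleTheory.rings : CycleRings W C where
  cl X :=
    { toFun := 𝓣.cl X
      map_one' := 𝓣.isClassMap.map_one X
      map_mul' := 𝓣.isClassMap.map_mul X
      map_zero' := 𝓣.isClassMap.map_zero X
      map_add' := 𝓣.isClassMap.map_add X }
  isTheory := 𝓣.isTheory
  hasIso := ⟨𝓣.push_iso⟩
  comm := 𝓣.comm
  cl_pull := 𝓣.isClassMap.pull
  cl_push := 𝓣.isClassMap.push
  cl_gr := 𝓣.isClassMap.image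

lemma rings_cl (a : C.A X) : 𝓣.rings.cl X a = 𝓣.cl X a := rfl

include 𝓣 in
lemma ccomp_eq (Γ : C.A (X.prod Y)) (Δ : C.A (Y.prod Z)) : ccomp C Γ Δ = C.comp Γ Δ := by
  have hI := 𝓣.isTheory
  have hJ := 𝓣.rings.hasIso
  rw [Pool.Agent.W550.Corr.comp_eq_extR, TheoryData.extR]
  have e1 : u13 X Y Z = p13 X Y Z := by
    apply Pool.Agent.W550.Corr.prod_ext <;> simp [p13]
  have e2 : u12 X Y Z = p12 X Y Z := by
    apply Pool.Agent.W550.Corr.prod_ext <;> simp [p12]
  rw [e1, e2]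
  change C.push (p13 X Y Z) (C.pull (p12 X Y Z) Γ * C.pull (p23 X Y Z) Δ) = _
  have h := 𝓣.comm (C.pull (p12 X Y Z) Γ) (C.pull (p23 X Y Z) Δ)
  change C.pull (p12 X Y Z) Γ * C.pull (p23 X Y Z) Δ =
    C.pull (p23 X Y Z) Δ * C.pull (p12 X Y Z) Γ at h
  rw [h]
  rfl

include 𝓣 in
lemma ccpow_eq (γ : C.A (X.prod X)) (n : ℕ) : ccpow C γ n = cpow C γ n := by
  induction n with
  | zero => rfl
  | succ n ih => rw [ccpow, cpow, ih, ccomp_eq 𝓣]

lemma numTriv_iff' (a : C.A X) : 𝓣.NumTriv a ↔ 𝓣.rings.NumTrivial a := Iff.rfl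

lemma numNil (h : 𝓣.NumNil X) : 𝓣.rings.NumNilpotent X := by
  intro γ hγ
  obtain ⟨n, hn⟩ := h γ hγ
  exact ⟨n, by rw [← ccpow_eq 𝓣]; exact hn⟩

/-- A space of dimension at least `x` contains at least `x` linearly independent elements. -/
lemma hasIndep_of {M : Type} [AddCommGroup M] [Module ℚ M] (N : Submodule ℚ M) {x : ℝ}
    (h : DimAtLeast N x) : HasIndep (N : Set M) x := by
  by_cases hfd : FiniteDimensional ℚ N
  · have b := Module.finBasis ℚ N
    refine ⟨finrank ℚ N, fun i => (b i : M), h hfd, ?_, fun i => (b i).2⟩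
    exact b.linearIndependent.map' N.subtype (Submodule.ker_subtype N)
  · obtain ⟨n, hn⟩ := exists_nat_ge x
    have h1 : ∃ a : Fin n → N, LinearIndependent ℚ a := by
      have h2 : (n : Cardinal) ≤ Module.rank ℚ N := by
        have h3 : ¬ Module.rank ℚ N < Cardinal.aleph0 := by
          rw [Module.rank_lt_aleph0_iff]
          exact hfd
        exact (Cardinal.natCast_le_aleph0).trans (not_lt.1 h3)
      exact exists_linearIndependent_of_le_rank h2
    obtain ⟨a, ha⟩ := h1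
    exact ⟨n, fun i => (a i : M), hn, ha.map' N.subtype (Submodule.ker_subtype N),
      fun i => (a i).2⟩

end Pool.Agent.X312.CH

namespace Pool.Agent.X312.CH

open Module
open Pool.Agent.H914 Pool.Agent.H914.VarClass Pool.Agent.H914.VarClass.Obj
  Pool.Agent.H914.WeilCohomology Pool.Agent.W492.BB Pool.Agent.Y133.Half
  Pool.Agent.Y133.Half.Sys Pool.Agent.H281R3.HT

variable {k : Type u} [Field k] {𝒱 : VarClass k} {ops : CycleOps 𝒱}
  {W : WeilCohomology.{u, v} ops} {C : TheoryData.{u, 0, 0} 𝒱 ℚ} (𝓣 : CycleTheory W C)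

/-- **The gap law for numerically trivial cycles**, final form. -/
theorem num_law (X Y : 𝒱.Obj) (hY : (1 : W.H Y) ≠ 0) (hX : ∀ m, 𝓣.NumNil (pw X m)) (m : ℕ) :
    (∀ a : C.A (Y.prod (pw X m)), 𝓣.NumTriv a → a = 0) ∨
    ∀ n : ℕ, HasIndep {a : C.A (Y.prod (pw X n)) | 𝓣.NumTriv a}
        ((1 - 4 * (m + 4) * (finrank W.K (W.H X) : ℝ) ^ (m + 6) * Real.log (n + 2) / (n + 1)) *
          cycRank ops (pw X n)) := by
  have h4 : ∀ n : ℕ, Pool.Agent.X312.RL.cst (Module.finrank W.K (W.H X)) (m + 1) 2 n =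
      4 * (m + 4) * (finrank W.K (W.H X) : ℝ) ^ (m + 6) * Real.log (n + 2) / (n + 1) := by
    intro n
    unfold Pool.Agent.X312.RL.cst
    push_cast
    ring
  rcases num_gap 𝓣.rings X Y hY (fun m => numNil 𝓣 (hX m)) m with h | h
  · exact Or.inl h
  · right
    intro n
    have h3 := h n
    rw [h4] at h3
    exact hasIndep_of _ h3

end Pool.Agent.X312.CH
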