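import Pool.Agent.X312.CH.AJDefs
import Pool.Agent.X312.CH.Conv

/-!
# Gap laws for stable families of cycles, and for the kernels of Abel-Jacobi maps
-/

open CategoryTheory AlgebraicGeometry

universe u v w

namespace Pool.Agent.X312.CH

open Module
open Pool.Agent.H914 Pool.Agent.H914.VarClass Pool.Agent.H914.VarClass.Obj
  Pool.Agent.H914.WeilCohomology Pool.Agent.W492.BB Pool.Agent.Y133.Half
  Pool.Agent.Y133.Half.Sys Pool.Agent.H281R3.HT

variable {k : Type u} [Field k] {𝒱 : VarClass k} {ops : CycleOps 𝒱}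
  {W : WeilCohomology.{u, v} ops} {C : TheoryData.{u, 0, 0} 𝒱 ℚ} (𝓣 : CycleTheory W C)
  {X Y Z : 𝒱.Obj}

lemma cst_expand (b m n : ℕ) : Pool.Agent.X312.RL.cst b (m + 1) 2 n =
    4 * (m + 4) * (b : ℝ) ^ (m + 6) * Real.log (n + 2) / (n + 1) := by
  unfold Pool.Agent.X312.RL.cst
  push_cast
  ring

/-- A quotient of dimension at least `x` contains at least `x` elements which are linearly
independent modulo the subspace. -/
def HasIndepMod {M : Type w} [AddCommGroup M] [Module ℚ M] (N' : Submodule ℚ M) (S : Set M)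
    (x : ℝ) : Prop :=
  ∃ (N : ℕ) (a : Fin N → M), x ≤ N ∧ LinearIndependent ℚ (fun i => N'.mkQ (a i)) ∧ ∀ i, a i ∈ S

variable {T : ModTheory C} (hT : T.IsLawful)

include hT in
/-- **The gap law for module theories**, without comparison of equivalence relations. -/
theorem mod_law (X Y : 𝒱.Obj) (hX : ∀ m, 𝓣.NumNil (pw X m)) (hn : ∀ m, HomEqNum W (pw X m))
    {N' N : ∀ Z : 𝒱.Obj, Submodule ℚ (T.M (Y.prod Z))} (hN' : RStable T Y N')
    (hN : RStable T Y N) (m : ℕ) :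
    N (pw X m) ≤ N' (pw X m) ∨
    ∀ n : ℕ, DimAtLeast (MGr N' N (pw X n))
        ((1 - 4 * (m + 4) * (finrank W.K (W.H X) : ℝ) ^ (m + 6) * Real.log (n + 2) / (n + 1)) *
          cycRank ops (pw X n)) := by
  by_cases hne : N (pw X m) ≤ N' (pw X m)
  · exact Or.inl hne
  right
  intro n
  have h := m_gap 𝓣.rings hT X (fun m => numNil 𝓣 (hX m)) hN' hN hne n
  rw [cst_expand] at h
  exact gap_of_hn (hn n) h

/-- **The gap law for a family of subspaces of rings of cycles** which is stable under products with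
cycles, pull-backs and push-forwards, cut with a motive. -/
theorem fam_law (X Y : 𝒱.Obj) (e : C.A (Y.prod Y)) (hX : ∀ m, 𝓣.NumNil (pw X m))
    (hn : ∀ m, HomEqNum W (pw X m)) {N : ∀ Z : 𝒱.Obj, Submodule ℚ (C.A Z)} (hN : IsStable C N)
    (m : ℕ) :
    (∀ a ∈ N (Y.prod (pw X m)), ccomp C e a = a → a = 0) ∨
    ∀ n : ℕ, HasIndep {a : C.A (Y.prod (pw X n)) | a ∈ N _ ∧ ccomp C e a = a}
        ((1 - 4 * (m + 4) * (finrank W.K (W.H X) : ℝ) ^ (m + 6) * Real.log (n + 2) / (n + 1)) *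
          cycRank ops (pw X n)) := by
  have hI := 𝓣.isTheory
  have hJ := 𝓣.rings.hasIso
  let N₀ : ∀ Z : 𝒱.Obj, Submodule ℚ ((selfMod C).M (Y.prod Z)) := fun _ => ⊥
  let N₁ : ∀ Z : 𝒱.Obj, Submodule ℚ ((selfMod C).M (Y.prod Z)) := fun Z =>
    { carrier := {a | a ∈ N (Y.prod Z) ∧ ccomp C e a = a}
      zero_mem' := by
        refine ⟨Submodule.zero_mem _, ?_⟩
        rw [ccomp_eq 𝓣]
        exact Pool.Agent.W550.Corr.comp_zero C e
      add_mem' := by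
        rintro a b ⟨ha, ha'⟩ ⟨hb, hb'⟩
        refine ⟨Submodule.add_mem _ ha hb, ?_⟩
        rw [ccomp_eq 𝓣] at ha' hb' ⊢
        exact (Pool.Agent.W550.Corr.comp_add C e a b).trans (by rw [ha', hb']; rfl)
      smul_mem' := by
        rintro q a ⟨ha, ha'⟩
        refine ⟨Submodule.smul_mem _ q ha, ?_⟩
        rw [ccomp_eq 𝓣] at ha' ⊢
        have h1 := (Pool.Agent.W550.Corr.compL C e).map_smul q a
        change C.comp e (q • a) = q • C.comp e a at h1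
        exact h1.trans (by rw [ha']; rfl) }
  have hcorr : ∀ {Z Z' : 𝒱.Obj} (Γ : C.A (Z.prod Z')) (x : C.A (Y.prod Z)),
      (selfMod C).corr Γ Y x = C.comp x Γ := by
    intro Z Z' Γ x
    rw [Pool.Agent.W550.Corr.comp_eq_extR]
    rfl
  have h0 : RStable (selfMod C) Y N₀ := by
    intro Z Z' Γ x hx
    rw [(Submodule.mem_bot ℚ).1 hx, hcorr]
    rw [Submodule.mem_bot]
    exact Pool.Agent.W550.Corr.zero_comp C Γ
  have h1 : RStable (selfMod C) Y N₁ := by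
    rintro Z Z' Γ x ⟨hx, hx'⟩
    refine ⟨?_, ?_⟩
    · exact extR_mem hN Γ Y hx
    · rw [hcorr, ccomp_eq 𝓣]
      rw [ccomp_eq 𝓣] at hx'
      have h2 := Pool.Agent.W550.Corr.comp_assoc C e x Γ
      rw [hx'] at h2
      exact h2.symm
  rcases mod_law 𝓣 (selfMod_lawful C) X Y hX hn h0 h1 m with h | h
  · left
    intro a ha ha'
    exact (Submodule.mem_bot ℚ).1 (h ⟨ha, ha'⟩)
  · right
    intro n
    have e : MGr N₀ N₁ (pw X n) ≃ₗ[ℚ] N₁ (pw X n) := by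
      refine Submodule.quotEquivOfEqBot _ ?_
      rw [eq_bot_iff]
      intro c hc
      rw [Submodule.mem_comap] at hc
      rw [Submodule.mem_bot]
      exact Subtype.ext ((Submodule.mem_bot ℚ).1 hc)
    refine hasIndep_of (N₁ (pw X n)) (fun hfd => ?_)
    have h3 := h n (Module.Finite.equiv e.symm)
    rw [e.finrank_eq] at h3
    exact h3

/-! ## Abel-Jacobi kernels -/

variable {𝓣} (Φ : AbelJacobi 𝓣)

lemma homTriv_iff (a : C.A X) : 𝓣.HomTriv a ↔ a ∈ 𝓣.rings.homTriv X := Iff.rfl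

lemma homTriv_stable : IsStable C 𝓣.rings.homTriv where
  mul {X} a z hz := by
    change 𝓣.rings.cl X (a * z) = 0
    rw [map_mul, show 𝓣.rings.cl X z = 0 from hz, mul_zero]
  pull {X Y} f z hz := by
    change 𝓣.rings.cl X (C.up f z) = 0
    rw [𝓣.rings.cl_pull, show 𝓣.rings.cl Y z = 0 from hz, map_zero]
  push {X Y} f z hz := by
    change 𝓣.rings.cl Y (C.down f z) = 0
    rw [𝓣.rings.cl_push, show 𝓣.rings.cl X z = 0 from hz, map_zero]

/-- The Abel-Jacobi map as a homomorphism. -/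
noncomputable def AbelJacobi.hom (Φ : AbelJacobi 𝓣) (X : 𝒱.Obj) :
    𝓣.rings.homTriv X →+ Φ.J X :=
  AddMonoidHom.mk' (fun a => Φ.aj X a) (fun a b => Φ.add X a b a.2 b.2)

/-- The kernel of the Abel-Jacobi map. -/
noncomputable def AbelJacobi.ker (Φ : AbelJacobi 𝓣) (X : 𝒱.Obj) : Submodule ℚ (C.A X) :=
  (LinearMap.ker (Φ.hom X).toRatLinearMap).map (𝓣.rings.homTriv X).subtype

lemma mem_ker (a : C.A X) : a ∈ Φ.ker X ↔ Φ.Kernel a := by
  constructor
  · rintro ⟨b, hb, rfl⟩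
    exact ⟨b.2, LinearMap.mem_ker.1 hb⟩
  · rintro ⟨h1, h2⟩
    exact ⟨⟨a, h1⟩, LinearMap.mem_ker.2 h2, rfl⟩

lemma ker_stable : IsStable C Φ.ker where
  mul {X} a z hz := by
    rw [mem_ker] at hz ⊢
    obtain ⟨φ, hφ⟩ := Φ.mul X a
    exact ⟨homTriv_stable.mul a hz.1, by rw [hφ z hz.1, hz.2, map_zero]⟩
  pull {X Y} f z hz := by
    rw [mem_ker] at hz ⊢
    obtain ⟨φ, hφ⟩ := Φ.pull f
    exact ⟨homTriv_stable.pull f hz.1, by rw [hφ z hz.1, hz.2, map_zero]⟩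
  push {X Y} f z hz := by
    rw [mem_ker] at hz ⊢
    obtain ⟨φ, hφ⟩ := Φ.push f
    exact ⟨homTriv_stable.push f hz.1, by rw [hφ z hz.1, hz.2, map_zero]⟩

/-- **The gap law for Abel-Jacobi kernels.** -/
theorem aj_law (X Y : 𝒱.Obj) (e : C.A (Y.prod Y)) (hX : ∀ m, 𝓣.NumNil (pw X m))
    (hn : ∀ m, HomEqNum W (pw X m)) (m : ℕ) :
    (∀ a : C.A (Y.prod (pw X m)), Φ.Kernel a → ccomp C e a = a → a = 0) ∨
    ∀ n : ℕ, HasIndep {a : C.A (Y.prod (pw X n)) | Φ.Kernel a ∧ ccomp C e a = a}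
        ((1 - 4 * (m + 4) * (finrank W.K (W.H X) : ℝ) ^ (m + 6) * Real.log (n + 2) / (n + 1)) *
          cycRank ops (pw X n)) := by
  rcases fam_law 𝓣 X Y e hX hn (ker_stable Φ) m with h | h
  · exact Or.inl fun a ha => h a ((mem_ker Φ a).2 ha)
  · right
    intro n
    obtain ⟨N, a, h1, h2, h3⟩ := h n
    exact ⟨N, a, h1, h2, fun i => ⟨(mem_ker Φ _).1 (h3 i).1, (h3 i).2⟩⟩

end Pool.Agent.X312.CH

namespace Pool.Agent.X312.CH

open Module
open Pool.Agent.H914 Pool.Agent.H914.VarClass Pool.Agent.H914.VarClass.Obj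
  Pool.Agent.H914.WeilCohomology Pool.Agent.W492.BB Pool.Agent.Y133.Half
  Pool.Agent.Y133.Half.Sys Pool.Agent.H281R3.HT

variable {k : Type u} [Field k] {𝒱 : VarClass k} {ops : CycleOps 𝒱}
  {W : WeilCohomology.{u, v} ops} {C : TheoryData.{u, 0, 0} 𝒱 ℚ} {𝓣 : CycleTheory W C}

include 𝓣 in
/-- The diagonal is a left identity for the composition. -/
lemma ccomp_diag {Y Z : 𝒱.Obj} (a : C.A (Y.prod Z)) : ccomp C (C.down (diag Y) 1) a = a := by
  have hI := 𝓣.isTheory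
  rw [ccomp_eq 𝓣]
  exact Pool.Agent.W550.Corr.dg_comp C a

/-- The gap law for a stable family of subspaces of the rings of cycles. -/
theorem fam_law' (𝓣 : CycleTheory W C) (X Y : 𝒱.Obj) (hX : ∀ m, 𝓣.NumNil (pw X m))
    (hn : ∀ m, HomEqNum W (pw X m)) {N : ∀ Z : 𝒱.Obj, Submodule ℚ (C.A Z)} (hN : IsStable C N)
    (m : ℕ) :
    (∀ a ∈ N (Y.prod (pw X m)), a = 0) ∨
    ∀ n : ℕ, HasIndep {a : C.A (Y.prod (pw X n)) | a ∈ N _}
        ((1 - 4 * (m + 4) * (finrank W.K (W.H X) : ℝ) ^ (m + 6) * Real.log (n + 2) / (n + 1)) *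
          cycRank ops (pw X n)) := by
  rcases fam_law 𝓣 X Y (C.down (diag Y) 1) hX hn hN m with h | h
  · exact Or.inl fun a ha => h a ha (ccomp_diag (𝓣 := 𝓣) a)
  · right
    intro n
    obtain ⟨N, a, h1, h2, h3⟩ := h n
    exact ⟨N, a, h1, h2, fun i => (h3 i).1⟩

/-- The gap law for Abel-Jacobi kernels. -/
theorem aj_law' (Φ : AbelJacobi 𝓣) (X Y : 𝒱.Obj) (hX : ∀ m, 𝓣.NumNil (pw X m))
    (hn : ∀ m, HomEqNum W (pw X m)) (m : ℕ) :
    (∀ a : C.A (Y.prod (pw X m)), Φ.Kernel a → a = 0) ∨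
    ∀ n : ℕ, HasIndep {a : C.A (Y.prod (pw X n)) | Φ.Kernel a}
        ((1 - 4 * (m + 4) * (finrank W.K (W.H X) : ℝ) ^ (m + 6) * Real.log (n + 2) / (n + 1)) *
          cycRank ops (pw X n)) := by
  rcases fam_law' 𝓣 X Y hX hn (ker_stable Φ) m with h | h
  · exact Or.inl fun a ha => h a ((mem_ker Φ a).2 ha)
  · right
    intro n
    obtain ⟨N, a, h1, h2, h3⟩ := h n
    exact ⟨N, a, h1, h2, fun i => (mem_ker Φ _).1 (h3 i)⟩

end Pool.Agent.X312.CH
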