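import Pool.Agent.X312.CH.Pub

/-!
# Abel-Jacobi maps: definitions
-/

open CategoryTheory AlgebraicGeometry

universe u v

namespace Pool.Agent.X312.CH

open Pool.Agent.H914 Pool.Agent.H914.VarClass Pool.Agent.H914.VarClass.Obj Pool.Agent.W492.BB

variable {k : Type u} [Field k] {𝒱 : VarClass k} {ops : CycleOps 𝒱}
  {W : WeilCohomology.{u, v} ops} {C : TheoryData.{u, 0, 0} 𝒱 ℚ}

/-- The homologically trivial cycles. -/
def CycleTheory.HomTriv (𝓣 : CycleTheory W C) {X : 𝒱.Obj} (a : C.A X) : Prop := 𝓣.cl X a = 0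

/-- Abel-Jacobi maps: rational vector spaces `J(X)` (in the intended use: the sum over all
codimensions `i` of the intermediate Jacobians `J^i(X)` or of the Galois cohomology groups
`H^1(K, H^(2 i - 1)(X, ℚ_p(i)))`, tensored with `ℚ`) and maps `aj` from cycles to `J(X)` which are
additive on homologically trivial cycles (the values on other cycles play no role), such that
products with cycles, pull-backs and push-forwards of homologically trivial cycles induce
homomorphisms between the groups `J`. -/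
structure AbelJacobi (𝓣 : CycleTheory W C) where
  /-- the Jacobian, tensored with `ℚ` -/
  J : 𝒱.Obj → Type
  [grp : ∀ X, AddCommGroup (J X)]
  [mod : ∀ X, Module ℚ (J X)]
  /-- the Abel-Jacobi map -/
  aj : ∀ X : 𝒱.Obj, C.A X → J X
  add : ∀ (X : 𝒱.Obj) (a b : C.A X), 𝓣.HomTriv a → 𝓣.HomTriv b → aj X (a + b) = aj X a + aj X b
  mul : ∀ (X : 𝒱.Obj) (c : C.A X), ∃ φ : J X →+ J X, ∀ a : C.A X, 𝓣.HomTriv a →
    aj X (C.mul c a) = φ (aj X a)
  pull : ∀ {X Y : 𝒱.Obj} (f : X ⟶ Y), ∃ φ : J Y →+ J X, ∀ a : C.A Y, 𝓣.HomTriv a →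
    aj X (C.up f a) = φ (aj Y a)
  push : ∀ {X Y : 𝒱.Obj} (f : X ⟶ Y), ∃ φ : J X →+ J Y, ∀ a : C.A X, 𝓣.HomTriv a →
    aj Y (C.down f a) = φ (aj X a)

attribute [instance] AbelJacobi.grp AbelJacobi.mod

/-- The cycle `a` is homologically trivial and its Abel-Jacobi invariant is zero. -/
def AbelJacobi.Kernel {𝓣 : CycleTheory W C} (Φ : AbelJacobi 𝓣) {X : 𝒱.Obj} (a : C.A X) : Prop :=
  𝓣.HomTriv a ∧ Φ.aj X a = 0

end Pool.Agent.X312.CH
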