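import Mathlib

/-!
# Linear independence modulo a subset
-/

universe w

namespace Pool.Agent.X312.CH

/-- There are at least `x` elements of `S` which are linearly independent modulo the subspace
generated by `T`. -/
def IndepMod {M : Type w} [AddCommGroup M] [Module ℚ M] (S T : Set M) (x : ℝ) : Prop :=
  ∃ (N : ℕ) (a : Fin N → M), x ≤ N ∧
    LinearIndependent ℚ (fun i => (Submodule.span ℚ T).mkQ (a i)) ∧ ∀ i, a i ∈ S

end Pool.Agent.X312.CH
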