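import Pool.Agent.X312.CH.Gen
import Pool.Agent.X312.CH.ModDefs

/-!
# Gap laws for pairs of stable families
-/

open CategoryTheory AlgebraicGeometry

universe u v w

namespace Pool.Agent.X312.CH

open Module
open Pool.Agent.H914 Pool.Agent.H914.VarClass Pool.Agent.H914.VarClass.Obj
  Pool.Agent.H914.WeilCohomology Pool.Agent.W492.BB Pool.Agent.Y133.Half
  Pool.Agent.Y133.Half.Sys Pool.Agent.H281R3.HT

/-- A quotient of dimension at least `x` gives at least `x` elements which are linearly independent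
modulo the subspace. -/
lemma indepMod_of {M : Type} [AddCommGroup M] [Module ℚ M] (N' N : Submodule ℚ M) {x : ℝ}
    (h : DimAtLeast (N ⧸ N'.comap N.subtype) x) : IndepMod (N : Set M) (N' : Set M) x := by
  let f : N →ₗ[ℚ] N.map N'.mkQ :=
    (N'.mkQ ∘ₗ N.subtype).codRestrict _ (fun c => Submodule.mem_map_of_mem c.2)
  have hf : Function.Surjective f := by
    rintro ⟨_, c, hc, rfl⟩
    exact ⟨⟨c, hc⟩, rfl⟩
  have hk : N'.comap N.subtype = LinearMap.ker f := by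
    ext c
    rw [Submodule.mem_comap, LinearMap.mem_ker]
    constructor
    · intro h
      apply Subtype.ext
      exact (Submodule.Quotient.mk_eq_zero _).2 h
    · intro h
      exact (Submodule.Quotient.mk_eq_zero _).1 (congrArg Subtype.val h)
  let e : (N ⧸ N'.comap N.subtype) ≃ₗ[ℚ] N.map N'.mkQ :=
    (Submodule.quotEquivOfEq _ _ hk).trans (f.quotKerEquivOfSurjective hf)
  have h1 : DimAtLeast (N.map N'.mkQ) x := by
    intro hfd
    have h2 := h (Module.Finite.equiv e.symm)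
    rwa [e.finrank_eq] at h2
  obtain ⟨n, b, hn, hb, hb'⟩ := hasIndep_of _ h1
  choose a ha ha' using fun i => Submodule.mem_map.1 (hb' i)
  refine ⟨n, a, hn, ?_, ha⟩
  rw [Submodule.span_eq]
  have : (fun i => N'.mkQ (a i)) = b := funext ha'
  rw [this]
  exact hb

variable {k : Type u} [Field k] {𝒱 : VarClass k} {ops : CycleOps 𝒱}
  {W : WeilCohomology.{u, v} ops} {C : TheoryData.{u, 0, 0} 𝒱 ℚ}

lemma rstable_of [IsTheory C 1] {N : ∀ Z : 𝒱.Obj, Submodule ℚ (C.A Z)} (hN : IsStable C N)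
    (Y : 𝒱.Obj) : RStable (selfMod C) Y (fun Z => N (Y.prod Z)) :=
  fun _ _ Γ _ hx => extR_mem hN Γ Y hx

/-- **The gap law for two stable families of subspaces of the rings of cycles.** -/
theorem pair_law (𝓣 : CycleTheory W C) (X Y : 𝒱.Obj) (hX : ∀ m, 𝓣.NumNil (pw X m))
    (hn : ∀ m, HomEqNum W (pw X m)) {N' N : ∀ Z : 𝒱.Obj, Submodule ℚ (C.A Z)}
    (hN' : IsStable C N') (hN : IsStable C N) (m : ℕ) :
    N (Y.prod (pw X m)) ≤ N' (Y.prod (pw X m)) ∨
    ∀ n : ℕ, IndepMod (N (Y.prod (pw X n)) : Set (C.A (Y.prod (pw X n))))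
      (N' (Y.prod (pw X n)) : Set (C.A (Y.prod (pw X n))))
        ((1 - 4 * (m + 4) * (finrank W.K (W.H X) : ℝ) ^ (m + 6) * Real.log (n + 2) / (n + 1)) *
          cycRank ops (pw X n)) := by
  have hI := 𝓣.isTheory
  rcases mod_law 𝓣 (selfMod_lawful C) X Y hX hn (rstable_of hN' Y) (rstable_of hN Y) m with h | h
  · exact Or.inl h
  · exact Or.inr fun n => indepMod_of _ _ (h n)

/-- **Comparison of the kernels of two Abel-Jacobi maps.** -/
theorem compare_law {𝓣 : CycleTheory W C} (Φ Ψ : AbelJacobi 𝓣) (X Y : 𝒱.Obj)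
    (hX : ∀ m, 𝓣.NumNil (pw X m)) (hn : ∀ m, HomEqNum W (pw X m)) (m : ℕ) :
    {a : C.A (Y.prod (pw X m)) | 𝓣.HomTriv a ∧ Φ.aj _ a = 0} ⊆
      {a : C.A (Y.prod (pw X m)) | 𝓣.HomTriv a ∧ Ψ.aj _ a = 0} ∨
    ∀ n : ℕ, IndepMod {a : C.A (Y.prod (pw X n)) | 𝓣.HomTriv a ∧ Φ.aj _ a = 0}
      ({a : C.A (Y.prod (pw X n)) | 𝓣.HomTriv a ∧ Φ.aj _ a = 0} ∩
        {a : C.A (Y.prod (pw X n)) | 𝓣.HomTriv a ∧ Ψ.aj _ a = 0})
        ((1 - 4 * (m + 4) * (finrank W.K (W.H X) : ℝ) ^ (m + 6) * Real.log (n + 2) / (n + 1)) *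
          cycRank ops (pw X n)) := by
  have hst : IsStable C (fun Z => Φ.ker Z ⊓ Ψ.ker Z) :=
    ⟨fun a _ hz => ⟨(ker_stable Φ).mul a hz.1, (ker_stable Ψ).mul a hz.2⟩,
      fun f _ hz => ⟨(ker_stable Φ).pull f hz.1, (ker_stable Ψ).pull f hz.2⟩,
      fun f _ hz => ⟨(ker_stable Φ).push f hz.1, (ker_stable Ψ).push f hz.2⟩⟩
  have hset : ∀ (Θ : AbelJacobi 𝓣) (Z : 𝒱.Obj),
      {a : C.A Z | 𝓣.HomTriv a ∧ Θ.aj _ a = 0} = (Θ.ker Z : Set (C.A Z)) := by
    intro Θ Z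
    ext a
    exact (mem_ker Θ a).symm
  rcases pair_law 𝓣 X Y hX hn hst (ker_stable Φ) m with h | h
  · left
    rw [hset, hset]
    exact fun a ha => (h ha).2
  · right
    intro n
    rw [hset, hset]
    exact h n

end Pool.Agent.X312.CH
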