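import Pool.Agent.W550.Corr.Basic
import Pool.Agent.X312.RL.Rel

/-!
# Rings of algebraic cycles modulo an equivalence relation: definitions
-/

open CategoryTheory AlgebraicGeometry

universe u v

namespace Pool.Agent.X312.CH

open Pool.Agent.H914 Pool.Agent.H914.VarClass Pool.Agent.H914.VarClass.Obj Pool.Agent.W492.BB
  Pool.Agent.W550.Corr
open Pool.Agent.Y133.Half (pw)

variable {k : Type u} [Field k] {𝒱 : VarClass k} {ops : CycleOps 𝒱}

/-- The rings `A(X)` of the theory `C` are the rings of algebraic cycles with rational coefficients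
modulo an adequate equivalence relation which is finer than homological equivalence for the Weil
cohomology theory `W`, for example the Chow rings. Recorded are: the formal properties of the Chow
groups (`IsTheory C 1`: grading by the codimension, functoriality of pull-backs and push-forwards,
projection formula, base change along projections of products; `HasIso`: push-forwards along
isomorphisms preserve fundamental classes; commutativity) and the cycle class maps
`A(X) → H(X)`, ring homomorphisms which are compatible with pull-backs and push-forwards. The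
classes of the elements of `A^p(X)` are exactly the classes of the cycles of codimension `p`. -/
structure CycleRings (W : WeilCohomology.{u, v} ops) (C : TheoryData.{u, 0, 0} 𝒱 ℚ) where
  /-- the cycle class map -/
  cl : ∀ X : 𝒱.Obj, C.A X →+* W.H X
  isTheory : IsTheory C 1
  hasIso : HasIso C
  comm : ∀ {X : 𝒱.Obj} (a b : C.A X), C.mul a b = C.mul b a
  cl_pull : ∀ {X Y : 𝒱.Obj} (f : X ⟶ Y) (a : C.A Y), cl X (C.up f a) = W.map f (cl Y a)
  cl_push : ∀ {X Y : 𝒱.Obj} (f : X ⟶ Y) (a : C.A X), cl Y (C.down f a) = W.push f (cl X a)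
  cl_gr : ∀ (X : 𝒱.Obj) (p : ℕ),
    cl X '' (C.gr X p) = {c | ∃ z : X.Cycles, X.IsCyc p z ∧ W.cl X z = c}

section

variable {W : WeilCohomology.{u, v} ops} {C : TheoryData.{u, 0, 0} 𝒱 ℚ} (𝓐 : CycleRings W C)

/-- The element `a` of `A(X)` is numerically trivial. -/
def CycleRings.NumTrivial {X : 𝒱.Obj} (a : C.A X) : Prop :=
  ∀ b : C.A X, W.tr X (𝓐.cl X (C.mul a b)) = 0

/-- The numerically trivial elements of `A(X)`. -/
def CycleRings.numTriv (X : 𝒱.Obj) : Submodule ℚ (C.A X) where
  carrier := {a | 𝓐.NumTrivial a}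
  zero_mem' b := by
    change W.tr X (𝓐.cl X (0 * b)) = 0
    rw [zero_mul, map_zero, map_zero]
  add_mem' {a a'} ha ha' b := by
    change W.tr X (𝓐.cl X ((a + a') * b)) = 0
    rw [add_mul, map_add, map_add]
    have h1 := ha b
    have h2 := ha' b
    change W.tr X (𝓐.cl X (a * b)) = 0 at h1
    change W.tr X (𝓐.cl X (a' * b)) = 0 at h2
    rw [h1, h2, add_zero]
  smul_mem' q a ha b := by
    change W.tr X (𝓐.cl X ((q • a) * b)) = 0
    rw [smul_mul_assoc, ← mul_smul_comm]
    exact ha (q • b)

/-- The homologically trivial elements of `A(X)`. -/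
def CycleRings.homTriv (X : 𝒱.Obj) : Submodule ℚ (C.A X) where
  carrier := {a | 𝓐.cl X a = 0}
  zero_mem' := map_zero _
  add_mem' {a a'} ha ha' := by
    change 𝓐.cl X (a + a') = 0
    rw [map_add, show 𝓐.cl X a = 0 from ha, show 𝓐.cl X a' = 0 from ha', add_zero]
  smul_mem' q a ha := by
    change 𝓐.cl X (q • a) = 0
    rw [Algebra.smul_def, map_mul, show 𝓐.cl X a = 0 from ha, mul_zero]

/-- The powers `1, γ, γ ∘ γ, …` of a self-correspondence for the composition. -/
noncomputable def cpow (C : TheoryData.{u, 0, 0} 𝒱 ℚ) {X : 𝒱.Obj} (γ : C.A (X.prod X)) :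
    ℕ → C.A (X.prod X)
  | 0 => dg C X
  | n + 1 => C.comp (cpow C γ n) γ

/-- The numerically trivial self-correspondences of `X` (of arbitrary degrees) are nilpotent. -/
def CycleRings.NumNilpotent (X : 𝒱.Obj) : Prop :=
  ∀ γ : C.A (X.prod X), 𝓐.NumTrivial γ → ∃ n, cpow C γ n = 0

/-- The family of subspaces `N X` of `A(X)` is stable under products with arbitrary cycles,
pull-backs and push-forwards. -/
structure IsStable (C : TheoryData.{u, 0, 0} 𝒱 ℚ) (N : ∀ X : 𝒱.Obj, Submodule ℚ (C.A X)) :
    Prop where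
  mul : ∀ {X : 𝒱.Obj} (a : C.A X) {z : C.A X}, z ∈ N X → C.mul a z ∈ N X
  pull : ∀ {X Y : 𝒱.Obj} (f : X ⟶ Y) {z : C.A Y}, z ∈ N Y → C.up f z ∈ N X
  push : ∀ {X Y : 𝒱.Obj} (f : X ⟶ Y) {z : C.A X}, z ∈ N X → C.down f z ∈ N Y

end

end Pool.Agent.X312.CH
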