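import Pool.Agent.X312.CH.AJ

/-!
# Abel-Jacobi kernels and the action of correspondences
-/

open CategoryTheory AlgebraicGeometry

universe u v

namespace Pool.Agent.X312.CH

open Pool.Agent.H914 Pool.Agent.H914.VarClass Pool.Agent.H914.VarClass.Obj
  Pool.Agent.H914.WeilCohomology Pool.Agent.W492.BB

variable {k : Type u} [Field k] {𝒱 : VarClass k} {ops : CycleOps 𝒱}
  {W : WeilCohomology.{u, v} ops} {C : TheoryData.{u, 0, 0} 𝒱 ℚ}

lemma act_zero' {X Y : 𝒱.Obj} (Δ : C.A (X.prod Y)) : C.act Δ 0 = 0 := C.act_map_zero Δ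

/-- Stable families are stable under the action of correspondences. -/
lemma stable_act {N : ∀ Z : 𝒱.Obj, Submodule ℚ (C.A Z)} (hN : IsStable C N) {X Y : 𝒱.Obj}
    (Γ : C.A (X.prod Y)) {a : C.A X} (ha : a ∈ N X) : C.act Γ a ∈ N Y :=
  hN.push _ (hN.mul _ (hN.pull _ ha))

/-- Correspondences preserve Abel-Jacobi kernels. -/
lemma kernel_act {𝓣 : CycleTheory W C} (Φ : AbelJacobi 𝓣) {X Y : 𝒱.Obj} (Γ : C.A (X.prod Y))
    {a : C.A X} (ha : Φ.Kernel a) : Φ.Kernel (C.act Γ a) := by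
  rw [← mem_ker] at ha ⊢
  exact stable_act (ker_stable Φ) Γ ha

end Pool.Agent.X312.CH
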