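import Pool.Agent.X312.CH.Ops

/-!
# The gap law for stable families of subspaces of rings of cycles
-/

open CategoryTheory AlgebraicGeometry

universe u v

namespace Pool.Agent.X312.CH

open Module Polynomial
open Pool.Agent.H914 Pool.Agent.H914.VarClass Pool.Agent.H914.VarClass.Obj
  Pool.Agent.H914.WeilCohomology Pool.Agent.Y133.Half Pool.Agent.Y133.Half.Sys
  Pool.Agent.H281R3.HT Pool.Agent.W536.RR
open Pool.Agent.W492.BB (TheoryData IsTheory prodMap u12 u13)
open Pool.Agent.W550.Corr (HasIso dg comp_eq_extR extR_comp extR_graph)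
open Pool.Agent.X312.RL

variable {k : Type u} [Field k] {𝒱 : VarClass k} {ops : CycleOps 𝒱}
  {W : WeilCohomology.{u, v} ops} {C : TheoryData.{u, 0, 0} 𝒱 ℚ} (𝓐 : CycleRings W C)
  {X Y Z P : 𝒱.Obj} {N' N : ∀ X : 𝒱.Obj, Submodule ℚ (C.A X)}

lemma fine (hN' : IsStable C N') (Y : 𝒱.Obj) (hnil : 𝓐.NumNilpotent P) :
    Fine (algebraMap ℚ W.K) (chOps 𝓐 N' Y) P := by
  have hM := isMdl 𝓐 hN' Y
  refine ⟨?_, ?_⟩
  · intro x hx
    obtain ⟨μ, hμ0, hμ⟩ := exists_poly 𝓐 Y hx
    have hy := hM.aeval_mem hx μ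
    obtain ⟨Δ, h1, h2⟩ := hy
    change aeval x.2 (μ.map (algebraMap ℚ W.K)) = _ at h1
    have h3 : 𝓐.NumTrivial Δ := by
      rw [numTrivial_iff]
      rw [h1] at hμ
      obtain ⟨c, hc, hc'⟩ := mem_NOp.1 hμ
      have h4 : c = 𝓐.cl _ Δ := corrL_injective P P hc'
      rw [← h4]
      exact hc
    obtain ⟨n, hn⟩ := hnil Δ h3
    obtain ⟨h5, h6⟩ := pow_eq_zero' 𝓐 Y (x := (aeval x.1 μ, aeval x.2 (μ.map (algebraMap ℚ W.K))))
      h1 h2 hn
    refine ⟨μ ^ n, pow_ne_zero n hμ0, ?_, ?_⟩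
    · rw [map_pow]; exact h5
    · rw [Polynomial.map_pow, map_pow]; exact h6
  · rintro x ⟨Δ, h1, h2⟩ hxx hx0
    have h3 : 𝓐.NumTrivial Δ := by
      rw [numTrivial_iff]
      have h4 : 𝓐.cl _ Δ = 0 := by
        apply corr_inj
        rw [← h1, hx0]
      rw [h4]
      exact Submodule.zero_mem _
    obtain ⟨n, hn⟩ := hnil Δ h3
    have h5 := (pow_eq_zero' 𝓐 Y (x := x) h1 h2 hn).1
    have hid : IsIdempotentElem (x.1 : Module.End ℚ (Vq N' Y P)) := hxx
    rcases Nat.eq_zero_or_pos n with h0 | h0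
    · rw [h0, pow_zero] at h5
      have : (x.1 : Module.End ℚ (Vq N' Y P)) = x.1 * 1 := (mul_one _).symm
      rw [h5, mul_zero] at this
      exact this
    · obtain ⟨n', rfl⟩ : ∃ n', n = n' + 1 := ⟨n - 1, by omega⟩
      rw [IsIdempotentElem.pow_succ_eq n' hid] at h5
      exact h5

/-- The dimension of the rational vector space `M` is at least `x` (it may be infinite). -/
def DimAtLeast (M : Type) [AddCommGroup M] [Module ℚ M] (x : ℝ) : Prop :=
  FiniteDimensional ℚ M → x ≤ finrank ℚ M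

/-- The quotient of two subspaces. -/
abbrev Gr (N' N : ∀ X : 𝒱.Obj, Submodule ℚ (C.A X)) (Z : 𝒱.Obj) : Type :=
  N Z ⧸ (N' Z).comap (N Z).subtype

/-- The quotient of two subspaces as a subspace of a quotient. -/
noncomputable def grEquiv (N' N : ∀ X : 𝒱.Obj, Submodule ℚ (C.A X)) (Z : 𝒱.Obj) :
    Gr N' N Z ≃ₗ[ℚ] (N Z).map (N' Z).mkQ := by
  let f : N Z →ₗ[ℚ] (N Z).map (N' Z).mkQ :=
    ((N' Z).mkQ ∘ₗ (N Z).subtype).codRestrict _ (fun c => Submodule.mem_map_of_mem c.2)
  have hf : Function.Surjective f := by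
    rintro ⟨_, c, hc, rfl⟩
    exact ⟨⟨c, hc⟩, rfl⟩
  have hk : (N' Z).comap (N Z).subtype = LinearMap.ker f := by
    ext c
    rw [Submodule.mem_comap, LinearMap.mem_ker]
    constructor
    · intro h
      apply Subtype.ext
      exact (Submodule.Quotient.mk_eq_zero _).2 h
    · intro h
      exact (Submodule.Quotient.mk_eq_zero _).1 (congrArg Subtype.val h)
  exact (Submodule.quotEquivOfEq _ _ hk).trans (f.quotKerEquivOfSurjective hf)

/-- **The gap law for stable families of subspaces of the rings of cycles.** If `N' ≤ N` are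
stable families which differ on `Y × X ^ (m + 1)`, and the numerically trivial
self-correspondences of the powers of `X` are nilpotent, then for all `n` the dimension of `N / N'`
on `Y × X ^ (n + 1)` is at least `1 - 4 (m + 4) b ^ (m + 6) log (n + 2) / (n + 1)` times the rank of the
cycles on `X ^ (n + 1)` modulo numerical equivalence, or at least half of the dimension of the space of
the algebraic classes on `X ^ (n + 1)` is numerically trivial. -/
theorem gap (X Y : 𝒱.Obj) (hnil : ∀ m, 𝓐.NumNilpotent (pw X m)) (hN' : IsStable C N')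
    (hN : IsStable C N) {m : ℕ} (hne : ¬ N (Y.prod (pw X m)) ≤ N' (Y.prod (pw X m))) (n : ℕ) :
    DimAtLeast (Gr N' N (Y.prod (pw X n)))
        ((1 - cst (finrank W.K (W.H X)) (m + 1) 2 n) * cycRank ops (pw X n)) ∨
      (2 : ℝ) * cycRank ops (pw X n) ≤ finrank W.K (algSpan W (pw X n)) := by
  by_cases hfd : FiniteDimensional ℚ (Gr N' N (Y.prod (pw X n)))
  swap
  · exact Or.inl fun h => absurd h hfd
  rcases (algSys W).exists_one_or X with ⟨l, hl, hl1⟩ | h0
  swap
  · left
    intro _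
    rw [← numDim_eq_cycRank W, h0, Nat.cast_zero, mul_zero]
    exact Nat.cast_nonneg _
  have hne' : (⊥ : Submodule ℚ (Vq N' Y (pw X m))) ≠
      (N (Y.prod (pw X m))).map (N' (Y.prod (pw X m))).mkQ := by
    intro h
    apply hne
    intro c hc
    have h1 : (N' (Y.prod (pw X m))).mkQ c ∈ (⊥ : Submodule ℚ (Vq N' Y (pw X m))) := by
      rw [h]; exact Submodule.mem_map_of_mem hc
    rw [Submodule.mem_bot] at h1
    exact (Submodule.Quotient.mk_eq_zero _).1 h1
  have hfd' : FiniteDimensional ℚ ((N (Y.prod (pw X n))).map (N' (Y.prod (pw X n))).mkQ) :=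
    Module.Finite.equiv (grEquiv N' N (Y.prod (pw X n)))
  rcases (isMdl 𝓐 hN' Y).bound hl hl1 (fun m => fine 𝓐 hN' Y (hnil m)) (stable_zero 𝓐 Y)
    (stable_map 𝓐 hN Y) (fun _ => bot_le) hne' (le_refl (2 : ℝ)) n hfd' with h | h
  · left
    intro _
    rw [finrank_bot, Nat.cast_zero, zero_add, numDim_eq_cycRank] at h
    rw [(grEquiv N' N (Y.prod (pw X n))).finrank_eq]
    exact h
  · right
    have h1 := h (algSys W)
    rw [numDim_eq_cycRank] at h1
    exact h1

end Pool.Agent.X312.CH
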