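import Pool.Agent.X312.CH.Theory
import Pool.Agent.X312.CH.Main
import Pool.Agent.Y133.Half.Index

/-!
# The gap law for module theories over rings of cycles
-/

open CategoryTheory AlgebraicGeometry

universe u v

namespace Pool.Agent.X312.CH

open Module Polynomial
open Pool.Agent.H914 Pool.Agent.H914.VarClass Pool.Agent.H914.VarClass.Obj
  Pool.Agent.H914.WeilCohomology Pool.Agent.Y133.Half Pool.Agent.Y133.Half.Sys
  Pool.Agent.H281R3.HT Pool.Agent.W536.RR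
open Pool.Agent.W492.BB (TheoryData IsTheory prodMap u12 u13)
open Pool.Agent.W550.Corr (HasIso dg comp_eq_extR extR_comp extR_graph)
open Pool.Agent.X312.RL

variable {k : Type u} [Field k] {𝒱 : VarClass k} {ops : CycleOps 𝒱}
  {W : WeilCohomology.{u, v} ops} {C : TheoryData.{u, 0, 0} 𝒱 ℚ} (𝓐 : CycleRings W C)
  {T : ModTheory C} (hT : T.IsLawful)
  {X Y Z P : 𝒱.Obj} {N' N : ∀ Z : 𝒱.Obj, Submodule ℚ (T.M (Y.prod Z))}

/-- The family of subspaces `N Z` of `M(Y × Z)` is stable under the correspondences `1 × Γ`. -/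
def RStable (T : ModTheory C) (Y : 𝒱.Obj) (N : ∀ Z : 𝒱.Obj, Submodule ℚ (T.M (Y.prod Z))) :
    Prop :=
  ∀ (Z Z' : 𝒱.Obj) (Γ : C.A (Z.prod Z')) (x : T.M (Y.prod Z)), x ∈ N Z → T.corr Γ Y x ∈ N Z'

/-- The quotients `M(Y × Z) / N'(Y × Z)`. -/
abbrev Mq (N' : ∀ Z : 𝒱.Obj, Submodule ℚ (T.M (Y.prod Z))) (Z : 𝒱.Obj) : Type :=
  T.M (Y.prod Z) ⧸ N' Z

/-- The pairs of operators given by correspondences. -/
def mOps (N' : ∀ Z : 𝒱.Obj, Submodule ℚ (T.M (Y.prod Z))) :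
    Ops W ℚ (fun Z => Mq N' Z) :=
  fun Z Z' => {a | ∃ Δ : C.A (Z.prod Z'), a.2 = W.corr (𝓐.cl _ Δ) ∧
    ∀ c : T.M (Y.prod Z), a.1 ((N' Z).mkQ c) = (N' Z').mkQ (T.corr Δ Y c)}

lemma m_exists_op (hN' : RStable T Y N') {Z Z' : 𝒱.Obj} (Δ : C.A (Z.prod Z')) :
    ∃ f : Mq N' Z →ₗ[ℚ] Mq N' Z', (f, W.corr (𝓐.cl _ Δ)) ∈ mOps 𝓐 N' Z Z' := by
  refine ⟨(N' Z).mapQ (N' Z') (T.corrL Δ Y) ?_, Δ, rfl, fun c => ?_⟩
  · intro c hc
    exact hN' Z Z' Δ c hc
  · rfl

include hT in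
lemma m_isMdl (hN' : RStable T Y N') :
    IsMdl (algSys W) (algebraMap ℚ W.K) (mOps 𝓐 N') := by
  have hI := 𝓐.isTheory
  have hJ := 𝓐.hasIso
  refine ⟨?_, ?_, ?_, ?_, ?_⟩
  · rintro Z Z' a b ⟨Δ, ha, ha'⟩ ⟨Δ', hb, hb'⟩
    refine ⟨Δ + Δ', ?_, fun c => ?_⟩
    · change a.2 + b.2 = _
      rw [ha, hb, map_add, corr_add]
    · change (a.1 + b.1) _ = _
      rw [LinearMap.add_apply, ha', hb', corr_add_m, map_add]
  · rintro Z Z' q a ⟨Δ, ha, ha'⟩
    refine ⟨q • Δ, ?_, fun c => ?_⟩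
    · change _ • a.2 = _
      rw [ha, cl_smul, corr_smul]
    · change (q • a.1) _ = _
      rw [LinearMap.smul_apply, ha', corr_smul_m, map_smul]
  · intro Z
    refine ⟨dg C Z, (corr_dg 𝓐).symm, fun c => ?_⟩
    rw [corr_dg_m hT]
    rfl
  · rintro Z Z' Z'' a b ⟨Δ, ha, ha'⟩ ⟨Δ', hb, hb'⟩
    refine ⟨C.comp Δ' Δ, ?_, fun c => ?_⟩
    · change a.2 ∘ₗ b.2 = _
      rw [ha, hb, corr_comp_cl]
    · change a.1 (b.1 _) = _
      rw [hb', ha', corr_comp_m hT]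
  · intro Z Z'
    have h1 : Prod.snd '' mOps 𝓐 N' Z Z' = (corrL W Z Z') '' (Set.range (𝓐.cl (Z.prod Z'))) := by
      ext u
      constructor
      · rintro ⟨a, ⟨Δ, ha, _⟩, rfl⟩
        exact ⟨𝓐.cl _ Δ, ⟨Δ, rfl⟩, ha.symm⟩
      · rintro ⟨_, ⟨Δ, rfl⟩, rfl⟩
        obtain ⟨f, hf⟩ := m_exists_op 𝓐 hN' Δ
        exact ⟨_, hf, rfl⟩
    rw [h1, ← Submodule.map_span, span_cl]
    rfl

lemma m_stable_map (hN : RStable T Y N) :
    Stable (mOps 𝓐 N') (fun Z => (N Z).map (N' Z).mkQ) := by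
  rintro Z Z' a ⟨Δ, ha, ha'⟩ _ ⟨c, hc, rfl⟩
  rw [ha']
  exact Submodule.mem_map_of_mem (hN Z Z' Δ c hc)

lemma m_stable_zero : Stable (mOps 𝓐 N') (fun _ => ⊥) := by
  intro X Z a _ x hx
  rw [(Submodule.mem_bot ℚ).1 hx, map_zero]
  exact Submodule.zero_mem _

include hT in
/-- Powers of operators. -/
lemma m_pow_op {x : Module.End ℚ (Mq N' P) × Module.End W.K (W.H P)} {Δ : C.A (P.prod P)}
    (h1 : x.2 = W.corr (𝓐.cl _ Δ))
    (h2 : ∀ c : T.M (Y.prod P), x.1 ((N' P).mkQ c) = (N' P).mkQ (T.corr Δ Y c))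
    (n : ℕ) : (x.2 ^ n : Module.End W.K (W.H P)) = W.corr (𝓐.cl _ (cpow C Δ n)) ∧
      ∀ c : T.M (Y.prod P), (x.1 ^ n) ((N' P).mkQ c) = (N' P).mkQ (T.corr (cpow C Δ n) Y c) := by
  have hI := 𝓐.isTheory
  have hJ := 𝓐.hasIso
  induction n with
  | zero =>
    refine ⟨?_, fun c => ?_⟩
    · rw [pow_zero, cpow, corr_dg]; rfl
    · rw [pow_zero, cpow, corr_dg_m hT]; rfl
  | succ n ih =>
    refine ⟨?_, fun c => ?_⟩
    · rw [pow_succ', cpow, corr_comp_cl, ← ih.1, ← h1]; rfl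
    · rw [pow_succ', cpow, corr_comp_m hT, Module.End.mul_apply, ih.2, h2]

include hT in
lemma m_pow_eq_zero {x : Module.End ℚ (Mq N' P) × Module.End W.K (W.H P)}
    {Δ : C.A (P.prod P)} (h1 : x.2 = W.corr (𝓐.cl _ Δ))
    (h2 : ∀ c : T.M (Y.prod P), x.1 ((N' P).mkQ c) = (N' P).mkQ (T.corr Δ Y c))
    {n : ℕ} (hn : cpow C Δ n = 0) : x.1 ^ n = 0 ∧ x.2 ^ n = 0 := by
  obtain ⟨h3, h4⟩ := m_pow_op 𝓐 hT h1 h2 n
  refine ⟨?_, ?_⟩
  · apply LinearMap.ext
    intro v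
    obtain ⟨c, rfl⟩ := (N' P).mkQ_surjective v
    rw [h4, hn, corr_zero_m, map_zero]
    rfl
  · rw [h3, hn, map_zero, corr_zero]

/-- A rational polynomial in an algebraic correspondence is numerically trivial. -/
lemma exists_poly' (Δ : C.A (P.prod P)) :
    ∃ μ : ℚ[X], μ ≠ 0 ∧ (aeval (W.corr (𝓐.cl _ Δ) : Module.End W.K (W.H P))
      (μ.map (algebraMap ℚ W.K)) : Module.End W.K (W.H P)) ∈ (algSys W).NOp P P := by
  have hI := 𝓐.isTheory
  have hN' : IsStable C (fun _ => (⊥ : Submodule ℚ (C.A _))) := by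
    refine ⟨?_, ?_, ?_⟩
    · intro X a z hz
      rw [Submodule.mem_bot] at hz ⊢
      change a * z = 0
      rw [hz, mul_zero]
    · intro X Y f z hz
      rw [Submodule.mem_bot] at hz ⊢
      change C.pull f z = 0
      rw [hz, map_zero]
    · intro X Y f z hz
      rw [Submodule.mem_bot] at hz ⊢
      change C.push f z = 0
      rw [hz, map_zero]
  obtain ⟨f, hf⟩ := exists_op 𝓐 hN' P Δ
  exact exists_poly 𝓐 P hf

include hT in
lemma m_fine (hN' : RStable T Y N') (hnil : 𝓐.NumNilpotent P) :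
    Fine (algebraMap ℚ W.K) (mOps 𝓐 N') P := by
  have hM := m_isMdl 𝓐 hT hN'
  refine ⟨?_, ?_⟩
  · rintro x hx
    obtain ⟨Δ₀, h01, h02⟩ := id hx
    obtain ⟨μ, hμ0, hμ⟩ := exists_poly' 𝓐 Δ₀
    rw [← h01] at hμ
    have hy := hM.aeval_mem hx μ
    obtain ⟨Δ, h1, h2⟩ := hy
    change aeval x.2 (μ.map (algebraMap ℚ W.K)) = _ at h1
    have h3 : 𝓐.NumTrivial Δ := by
      rw [numTrivial_iff]
      rw [h1] at hμ
      obtain ⟨c, hc, hc'⟩ := mem_NOp.1 hμ
      have h4 : c = 𝓐.cl _ Δ := corrL_injective P P hc'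
      rw [← h4]
      exact hc
    obtain ⟨n, hn⟩ := hnil Δ h3
    obtain ⟨h5, h6⟩ := m_pow_eq_zero 𝓐 hT
      (x := (aeval x.1 μ, aeval x.2 (μ.map (algebraMap ℚ W.K)))) h1 h2 hn
    refine ⟨μ ^ n, pow_ne_zero n hμ0, ?_, ?_⟩
    · rw [map_pow]; exact h5
    · rw [Polynomial.map_pow, map_pow]; exact h6
  · rintro x ⟨Δ, h1, h2⟩ hxx hx0
    have h3 : 𝓐.NumTrivial Δ := by
      rw [numTrivial_iff]
      have h4 : 𝓐.cl _ Δ = 0 := by
        apply corr_inj
        rw [← h1, hx0]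
      rw [h4]
      exact Submodule.zero_mem _
    obtain ⟨n, hn⟩ := hnil Δ h3
    have h5 := (m_pow_eq_zero 𝓐 hT (x := x) h1 h2 hn).1
    have hid : IsIdempotentElem (x.1 : Module.End ℚ (Mq N' P)) := hxx
    rcases Nat.eq_zero_or_pos n with h0 | h0
    · rw [h0, pow_zero] at h5
      have : (x.1 : Module.End ℚ (Mq N' P)) = x.1 * 1 := (mul_one _).symm
      rw [h5, mul_zero] at this
      exact this
    · obtain ⟨n', rfl⟩ : ∃ n', n = n' + 1 := ⟨n - 1, by omega⟩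
      rw [IsIdempotentElem.pow_succ_eq n' hid] at h5
      exact h5

/-- The quotient of two subspaces. -/
abbrev MGr (N' N : ∀ Z : 𝒱.Obj, Submodule ℚ (T.M (Y.prod Z))) (Z : 𝒱.Obj) : Type :=
  N Z ⧸ (N' Z).comap (N Z).subtype

/-- The quotient of two subspaces as a subspace of a quotient. -/
noncomputable def mgrEquiv (N' N : ∀ Z : 𝒱.Obj, Submodule ℚ (T.M (Y.prod Z))) (Z : 𝒱.Obj) :
    MGr N' N Z ≃ₗ[ℚ] (N Z).map (N' Z).mkQ := by
  let f : N Z →ₗ[ℚ] (N Z).map (N' Z).mkQ :=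
    ((N' Z).mkQ ∘ₗ (N Z).subtype).codRestrict _ (fun c => Submodule.mem_map_of_mem c.2)
  have hf : Function.Surjective f := by
    rintro ⟨_, c, hc, rfl⟩
    exact ⟨⟨c, hc⟩, rfl⟩
  have hk : (N' Z).comap (N Z).subtype = LinearMap.ker f := by
    ext c
    rw [Submodule.mem_comap, LinearMap.mem_ker]
    constructor
    · intro h
      apply Subtype.ext
      exact (Submodule.Quotient.mk_eq_zero _).2 h
    · intro h
      exact (Submodule.Quotient.mk_eq_zero _).1 (congrArg Subtype.val h)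
  exact (Submodule.quotEquivOfEq _ _ hk).trans (f.quotKerEquivOfSurjective hf)

include hT in
/-- **The gap law.** If `N' ≤ N` are stable families in the `M(Y × Z)` which differ for
`Z = X ^ (m + 1)`, and the numerically trivial self-correspondences of the powers of `X` are
nilpotent, then for all `n` the dimension of `N / N'` for `Z = X ^ (n + 1)` is at least
`1 - 4 (m + 4) b ^ (m + 6) log (n + 2) / (n + 1)` times the rank of the cycles on `X ^ (n + 1)` modulo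
numerical equivalence, or at least half of the dimension of the space of the algebraic classes on
`X ^ (n + 1)` is numerically trivial. -/
theorem m_gap (X : 𝒱.Obj) (hnil : ∀ m, 𝓐.NumNilpotent (pw X m)) (hN' : RStable T Y N')
    (hN : RStable T Y N) {m : ℕ} (hne : ¬ N (pw X m) ≤ N' (pw X m)) (n : ℕ) :
    DimAtLeast (MGr N' N (pw X n))
        ((1 - cst (finrank W.K (W.H X)) (m + 1) 2 n) * cycRank ops (pw X n)) ∨
      (2 : ℝ) * cycRank ops (pw X n) ≤ finrank W.K (algSpan W (pw X n)) := by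
  by_cases hfd : FiniteDimensional ℚ (MGr N' N (pw X n))
  swap
  · exact Or.inl fun h => absurd h hfd
  rcases (algSys W).exists_one_or X with ⟨l, hl, hl1⟩ | h0
  swap
  · left
    intro _
    rw [← numDim_eq_cycRank W, h0, Nat.cast_zero, mul_zero]
    exact Nat.cast_nonneg _
  have hne' : (⊥ : Submodule ℚ (Mq N' (pw X m))) ≠ (N (pw X m)).map (N' (pw X m)).mkQ := by
    intro h
    apply hne
    intro c hc
    have h1 : (N' (pw X m)).mkQ c ∈ (⊥ : Submodule ℚ (Mq N' (pw X m))) := by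
      rw [h]; exact Submodule.mem_map_of_mem hc
    rw [Submodule.mem_bot] at h1
    exact (Submodule.Quotient.mk_eq_zero _).1 h1
  have hfd' : FiniteDimensional ℚ ((N (pw X n)).map (N' (pw X n)).mkQ) :=
    Module.Finite.equiv (mgrEquiv N' N (pw X n))
  rcases (m_isMdl 𝓐 hT hN').bound hl hl1 (fun m => m_fine 𝓐 hT hN' (hnil m)) (m_stable_zero 𝓐)
    (m_stable_map 𝓐 hN) (fun _ => bot_le) hne' (le_refl (2 : ℝ)) n hfd' with h | h
  · left
    intro _
    rw [finrank_bot, Nat.cast_zero, zero_add, numDim_eq_cycRank] at h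
    rw [(mgrEquiv N' N (pw X n)).finrank_eq]
    exact h
  · right
    have h1 := h (algSys W)
    rw [numDim_eq_cycRank] at h1
    exact h1

/-- If homological and numerical equivalence agree, the second alternative says that the rank is
zero. -/
lemma gap_of_hn {M : Type} [AddCommGroup M] [Module ℚ M] {Z : 𝒱.Obj} (h : HomEqNum W Z) {x : ℝ}
    (hor : DimAtLeast M (x * cycRank ops Z) ∨ (2 : ℝ) * cycRank ops Z ≤ finrank W.K (algSpan W Z)) :
    DimAtLeast M (x * cycRank ops Z) := by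
  rcases hor with h1 | h1
  · exact h1
  · rw [homEqNum_iff'] at h
    rw [← h] at h1
    have h2 : (0 : ℝ) ≤ cycRank ops Z := Nat.cast_nonneg _
    have h3 : (cycRank ops Z : ℝ) = 0 := by linarith
    intro _
    rw [h3, mul_zero]
    exact Nat.cast_nonneg _

end Pool.Agent.X312.CH
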