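import Pool.Agent.X312.CH.GenDefs
import Pool.Agent.X312.CH.AJ

/-!
# Families of cycles generated under correspondences
-/

open CategoryTheory AlgebraicGeometry

universe u v

namespace Pool.Agent.X312.CH

open Module
open Pool.Agent.H914 Pool.Agent.H914.VarClass Pool.Agent.H914.VarClass.Obj
  Pool.Agent.H914.WeilCohomology Pool.Agent.W492.BB Pool.Agent.Y133.Half
  Pool.Agent.Y133.Half.Sys Pool.Agent.H281R3.HT

variable {k : Type u} [Field k] {𝒱 : VarClass k} {ops : CycleOps 𝒱}
  {W : WeilCohomology.{u, v} ops} {C : TheoryData.{u, 0, 0} 𝒱 ℚ}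

lemma act_generated [IsTheory C 1] {G : ∀ S : 𝒱.Obj, C.A S → Prop} {Z Z' : 𝒱.Obj}
    (Δ : C.A (Z.prod Z')) {z : C.A Z} (hz : z ∈ generated C G Z) :
    C.act Δ z ∈ generated C G Z' := by
  change z ∈ Submodule.span ℚ _ at hz
  induction hz using Submodule.span_induction with
  | mem x hx =>
    obtain ⟨S, a, Γ, ha, rfl⟩ := hx
    rw [← C.act_comp]
    exact Submodule.subset_span ⟨S, a, _, ha, rfl⟩
  | zero =>
    rw [C.act_map_zero]
    exact Submodule.zero_mem _
  | add x y _ _ hx hy =>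
    rw [Pool.Agent.W550.Corr.act_map_add]
    exact Submodule.add_mem _ hx hy
  | smul q x _ hx =>
    rw [Pool.Agent.W550.Corr.act_map_smul]
    exact Submodule.smul_mem _ q hx

lemma generated_stable [IsTheory C 1] (G : ∀ S : 𝒱.Obj, C.A S → Prop) :
    IsStable C (generated C G) where
  mul {X} a {z} hz := by
    have h := C.act_mulCorr a z
    change a * z ∈ _
    rw [← h]
    exact act_generated _ hz
  pull {X Y} f {z} hz := by
    have h := C.act_cograph f z
    change C.pull f z ∈ _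
    rw [← h]
    exact act_generated _ hz
  push {X Y} f {z} hz := by
    have h := C.act_graph f z
    change C.push f z ∈ _
    rw [← h]
    exact act_generated _ hz

lemma mem_generated [IsTheory C 1] {G : ∀ S : 𝒱.Obj, C.A S → Prop} {Z : 𝒱.Obj} {z : C.A Z}
    (hz : G Z z) : z ∈ generated C G Z :=
  Submodule.subset_span ⟨Z, z, Pool.Agent.W550.Corr.dg C Z, hz,
    (Pool.Agent.W550.Corr.act_dg C z).symm⟩

/-- **The gap law for a generated family.** -/
theorem gen_law (𝓣 : CycleTheory W C) (G : ∀ S : 𝒱.Obj, C.A S → Prop) (X Y : 𝒱.Obj)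
    (hX : ∀ m, 𝓣.NumNil (pw X m)) (hn : ∀ m, HomEqNum W (pw X m)) (m : ℕ) :
    (∀ a ∈ generated C G (Y.prod (pw X m)), a = 0) ∨
    ∀ n : ℕ, HasIndep {a : C.A (Y.prod (pw X n)) | a ∈ generated C G _}
        ((1 - 4 * (m + 4) * (finrank W.K (W.H X) : ℝ) ^ (m + 6) * Real.log (n + 2) / (n + 1)) *
          cycRank ops (pw X n)) := by
  have hI := 𝓣.isTheory
  exact fam_law' 𝓣 X Y hX hn (generated_stable G) m

end Pool.Agent.X312.CH
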