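import Pool.Agent.X312.CH.Pub

/-!
# Families of cycles generated under correspondences: definition
-/

open CategoryTheory AlgebraicGeometry

universe u v

namespace Pool.Agent.X312.CH

open Pool.Agent.H914 Pool.Agent.H914.VarClass Pool.Agent.H914.VarClass.Obj Pool.Agent.W492.BB

variable {k : Type u} [Field k] {𝒱 : VarClass k}

/-- The subspace of `A(Z)` generated by the cycles `Γ_* a`, where `a` is a cycle on some variety `S` with
the property `G S a` and `Γ` is any correspondence on `S × Z`. -/
def generated (C : TheoryData.{u, 0, 0} 𝒱 ℚ) (G : ∀ S : 𝒱.Obj, C.A S → Prop) (Z : 𝒱.Obj) :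
    Submodule ℚ (C.A Z) :=
  Submodule.span ℚ {z | ∃ (S : 𝒱.Obj) (a : C.A S) (Γ : C.A (S.prod Z)), G S a ∧ z = C.act Γ a}

end Pool.Agent.X312.CH
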