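import Pool.Agent.X312.CH.Defs

/-!
# Rings of algebraic cycles as modules over correspondences
-/

open CategoryTheory AlgebraicGeometry

universe u v

namespace Pool.Agent.X312.CH

open Module Polynomial
open Pool.Agent.H914 Pool.Agent.H914.VarClass Pool.Agent.H914.VarClass.Obj
  Pool.Agent.H914.WeilCohomology Pool.Agent.Y133.Half Pool.Agent.Y133.Half.Sys
  Pool.Agent.H281R3.HT Pool.Agent.W536.RR
open Pool.Agent.W492.BB (TheoryData IsTheory prodMap u12 u13)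
open Pool.Agent.W550.Corr (HasIso dg comp_eq_extR extR_comp extR_graph)
open Pool.Agent.X312.RL

variable {k : Type u} [Field k] {𝒱 : VarClass k} {ops : CycleOps 𝒱}
  {W : WeilCohomology.{u, v} ops} {C : TheoryData.{u, 0, 0} 𝒱 ℚ} (𝓐 : CycleRings W C)
  {X Y Z P : 𝒱.Obj}

include 𝓐 in
lemma gr_ind {p : C.A X → Prop} (h : ∀ (i : ℕ) (a : C.A X), a ∈ C.gr X i → p a) (h0 : p 0)
    (hadd : ∀ a b, p a → p b → p (a + b)) (a : C.A X) : p a := by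
  have h1 : a ∈ ⨆ i, C.gr X i := by
    rw [(𝓐.isTheory.isGradedRing.isInternal X).submodule_iSup_eq_top]
    exact Submodule.mem_top
  refine Submodule.iSup_induction (fun i => C.gr X i) (motive := p) h1 ?_ h0 hadd
  intro i x hx
  rcases lt_or_ge i 0 with hi | hi
  · rw [𝓐.isTheory.isGradedRing.gr_neg X i hi, Submodule.mem_bot] at hx
    rw [hx]
    exact h0
  · obtain ⟨j, rfl⟩ := Int.eq_ofNat_of_zero_le hi
    exact h j x hx

lemma exists_cyc {i : ℕ} {a : C.A X} (ha : a ∈ C.gr X i) :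
    ∃ z : X.Cycles, X.IsCyc i z ∧ W.cl X z = 𝓐.cl X a := by
  have h : 𝓐.cl X a ∈ 𝓐.cl X '' (C.gr X i) := ⟨a, ha, rfl⟩
  rw [𝓐.cl_gr] at h
  exact h

lemma exists_of_cyc {i : ℕ} {z : X.Cycles} (hz : X.IsCyc i z) :
    ∃ a ∈ C.gr X i, 𝓐.cl X a = W.cl X z := by
  have h : W.cl X z ∈ 𝓐.cl X '' (C.gr X i) := by
    rw [𝓐.cl_gr]
    exact ⟨z, hz, rfl⟩
  exact h

lemma cl_alg (a : C.A X) : 𝓐.cl X a ∈ algSpan W X := by
  refine gr_ind 𝓐 (p := fun a => 𝓐.cl X a ∈ algSpan W X) ?_ ?_ ?_ a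
  · intro i a ha
    obtain ⟨z, hz, h⟩ := exists_cyc 𝓐 ha
    change 𝓐.cl X a ∈ algSpan W X
    rw [← h]
    exact Submodule.subset_span (Set.mem_iUnion.2 ⟨i, z, hz, rfl⟩)
  · rw [map_zero]; exact Submodule.zero_mem _
  · intro a b ha hb
    rw [map_add]; exact Submodule.add_mem _ ha hb

lemma span_cl : Submodule.span W.K (Set.range (𝓐.cl X)) = algSpan W X := by
  apply le_antisymm
  · rw [Submodule.span_le]
    rintro _ ⟨a, rfl⟩
    exact cl_alg 𝓐 a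
  · intro c hc
    refine algSpan_induction (p := fun c => c ∈ Submodule.span W.K (Set.range (𝓐.cl X)))
      ?_ ?_ ?_ ?_ hc
    · exact Submodule.zero_mem _
    · intro a b ha hb; exact Submodule.add_mem _ ha hb
    · intro t a ha; exact Submodule.smul_mem _ _ ha
    · intro j z hz
      obtain ⟨a, _, h⟩ := exists_of_cyc 𝓐 hz
      rw [← h]
      exact Submodule.subset_span ⟨a, rfl⟩

lemma cl_even (a : C.A X) : 𝓐.cl X a ∈ PH W X 0 := (algSys W).even (cl_alg 𝓐 a)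

/-- The orientations of algebraic classes are rational. -/
lemma tr_rat (a : C.A X) : ∃ q : ℚ, W.tr X (𝓐.cl X a) = (q : W.K) := by
  refine gr_ind 𝓐 (p := fun a => ∃ q : ℚ, W.tr X (𝓐.cl X a) = (q : W.K)) ?_ ?_ ?_ a
  · intro i a ha
    obtain ⟨z, hz, h⟩ := exists_cyc 𝓐 ha
    by_cases hi : i = X.dim
    · subst hi
      exact ⟨X.V.degCycle z, by rw [← h, W.tr_cl hz]⟩
    · exact ⟨0, by rw [← h, W.tr_eq_zero (W.cl_mem hz) (by omega), Rat.cast_zero]⟩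
  · exact ⟨0, by rw [map_zero, map_zero, Rat.cast_zero]⟩
  · rintro a b ⟨q, hq⟩ ⟨r, hr⟩
    exact ⟨q + r, by rw [map_add, map_add, hq, hr, Rat.cast_add]⟩

lemma cl_smul (q : ℚ) (a : C.A X) : 𝓐.cl X (q • a) = algebraMap ℚ W.K q • 𝓐.cl X a := by
  have h1 : (𝓐.cl X).comp (algebraMap ℚ (C.A X)) =
      (algebraMap W.K (W.H X)).comp (algebraMap ℚ W.K) := Subsingleton.elim _ _
  have h2 : 𝓐.cl X (algebraMap ℚ (C.A X) q) = algebraMap W.K (W.H X) (algebraMap ℚ W.K q) :=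
    congrArg (fun f : ℚ →+* W.H X => f q) h1
  rw [Algebra.smul_def, map_mul, h2, Algebra.smul_def]

/-! ## Operators -/

omit 𝓐 in
lemma extR_add (Δ Δ' : C.A (X.prod Z)) (Y : 𝒱.Obj) (c : C.A (Y.prod X)) :
    C.extR (Δ + Δ') Y c = C.extR Δ Y c + C.extR Δ' Y c := by
  rw [TheoryData.extR, map_add, add_mul, map_add]; rfl

omit 𝓐 in
lemma extR_smul (q : ℚ) (Δ : C.A (X.prod Z)) (Y : 𝒱.Obj) (c : C.A (Y.prod X)) :
    C.extR (q • Δ) Y c = q • C.extR Δ Y c := by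
  rw [TheoryData.extR, map_smul, smul_mul_assoc, map_smul]; rfl

omit 𝓐 in
lemma extR_zero (Y : 𝒱.Obj) (c : C.A (Y.prod X)) :
    C.extR (0 : C.A (X.prod Z)) Y c = 0 := by
  rw [TheoryData.extR, map_zero, zero_mul, map_zero]

include 𝓐 in
lemma extR_dg (Y : 𝒱.Obj) (c : C.A (Y.prod X)) : C.extR (dg C X) Y c = c := by
  haveI := 𝓐.isTheory
  rw [dg, extR_graph]
  have e1 : prodMap (𝟙 Y) (𝟙 X) = 𝟙 _ := by
    apply Pool.Agent.W550.Corr.prod_ext <;> simp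
  rw [e1, C.push_id]

lemma cl_dg : 𝓐.cl _ (dg C X) = W.push (diag X) (1 : W.H X) := by
  rw [dg, TheoryData.graph]
  have h := 𝓐.cl_push (Obj.lift (𝟙 X) (𝟙 X)) (1 : C.A X)
  rw [map_one] at h
  exact h

lemma corr_dg : W.corr (𝓐.cl _ (dg C X)) = LinearMap.id := by
  rw [cl_dg, corr_diag_one]

lemma corr_comp_cl (Γ : C.A (X.prod Y)) (Δ : C.A (Y.prod Z)) :
    W.corr (𝓐.cl _ (C.comp Γ Δ)) = W.corr (𝓐.cl _ Δ) ∘ₗ W.corr (𝓐.cl _ Γ) := by
  haveI := 𝓐.isTheory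
  haveI := 𝓐.hasIso
  rw [comp_eq_extR, TheoryData.extR]
  have h1 := 𝓐.cl_push (u13 X Y Z) (C.pull (snd X (Y.prod Z)) Δ * C.pull (u12 X Y Z) Γ)
  change 𝓐.cl _ (C.push (u13 X Y Z) (C.pull (snd X (Y.prod Z)) Δ * C.pull (u12 X Y Z) Γ)) = _ at h1
  rw [h1, map_mul]
  have h2 := 𝓐.cl_pull (snd X (Y.prod Z)) Δ
  change 𝓐.cl _ (C.pull (snd X (Y.prod Z)) Δ) = _ at h2
  have h3 := 𝓐.cl_pull (u12 X Y Z) Γ
  change 𝓐.cl _ (C.pull (u12 X Y Z) Γ) = _ at h3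
  rw [h2, h3]
  have e1 : u13 X Y Z = p13 X Y Z := by
    apply Pool.Agent.W550.Corr.prod_ext <;> simp [p13]
  have e2 : u12 X Y Z = p12 X Y Z := by
    apply Pool.Agent.W550.Corr.prod_ext <;> simp [p12]
  rw [e1, e2, PH.even_comm (PH.map _ (cl_even 𝓐 Δ)) (W.map (p12 X Y Z) (𝓐.cl _ Γ))]
  exact corr_comp' _ (cl_even 𝓐 Δ)

end Pool.Agent.X312.CH
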