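import Pool.Agent.X312.CH.Mod

/-!
# Rings of algebraic cycles as modules over correspondences: the family of quotients
-/

open CategoryTheory AlgebraicGeometry

universe u v

namespace Pool.Agent.X312.CH

open Module Polynomial
open Pool.Agent.H914 Pool.Agent.H914.VarClass Pool.Agent.H914.VarClass.Obj
  Pool.Agent.H914.WeilCohomology Pool.Agent.Y133.Half Pool.Agent.Y133.Half.Sys
  Pool.Agent.H281R3.HT Pool.Agent.W536.RR
open Pool.Agent.W492.BB (TheoryData IsTheory prodMap u12 u13)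
open Pool.Agent.W550.Corr (HasIso dg comp_eq_extR extR_comp extR_graph)
open Pool.Agent.X312.RL

variable {k : Type u} [Field k] {𝒱 : VarClass k} {ops : CycleOps 𝒱}
  {W : WeilCohomology.{u, v} ops} {C : TheoryData.{u, 0, 0} 𝒱 ℚ} (𝓐 : CycleRings W C)
  {X Y Z P : 𝒱.Obj} {N' N : ∀ X : 𝒱.Obj, Submodule ℚ (C.A X)}

omit 𝓐 in
lemma extR_mem (hN : IsStable C N) (Δ : C.A (X.prod Z)) (Y : 𝒱.Obj) {c : C.A (Y.prod X)}
    (hc : c ∈ N (Y.prod X)) : C.extR Δ Y c ∈ N (Y.prod Z) := by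
  rw [TheoryData.extR]
  exact hN.push _ (hN.mul _ (hN.pull _ hc))

/-- The quotients `A(Y × Z) / N'(Y × Z)`. -/
abbrev Vq (N' : ∀ X : 𝒱.Obj, Submodule ℚ (C.A X)) (Y Z : 𝒱.Obj) : Type :=
  C.A (Y.prod Z) ⧸ N' (Y.prod Z)

/-- The pairs of operators given by correspondences. -/
def chOps (N' : ∀ X : 𝒱.Obj, Submodule ℚ (C.A X)) (Y : 𝒱.Obj) :
    Ops W ℚ (fun Z => Vq N' Y Z) :=
  fun Z Z' => {a | ∃ Δ : C.A (Z.prod Z'), a.2 = W.corr (𝓐.cl _ Δ) ∧
    ∀ c : C.A (Y.prod Z), a.1 ((N' (Y.prod Z)).mkQ c) = (N' (Y.prod Z')).mkQ (C.extR Δ Y c)}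

lemma exists_op (hN' : IsStable C N') (Y : 𝒱.Obj) {Z Z' : 𝒱.Obj} (Δ : C.A (Z.prod Z')) :
    ∃ f : Vq N' Y Z →ₗ[ℚ] Vq N' Y Z', (f, W.corr (𝓐.cl _ Δ)) ∈ chOps 𝓐 N' Y Z Z' := by
  refine ⟨(N' (Y.prod Z)).mapQ (N' (Y.prod Z')) (C.extRL Δ Y) ?_, Δ, rfl, fun c => ?_⟩
  · intro c hc
    exact extR_mem hN' Δ Y hc
  · rfl

lemma isMdl (hN' : IsStable C N') (Y : 𝒱.Obj) :
    IsMdl (algSys W) (algebraMap ℚ W.K) (chOps 𝓐 N' Y) := by
  have hI := 𝓐.isTheory
  have hJ := 𝓐.hasIso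
  refine ⟨?_, ?_, ?_, ?_, ?_⟩
  · rintro Z Z' a b ⟨Δ, ha, ha'⟩ ⟨Δ', hb, hb'⟩
    refine ⟨Δ + Δ', ?_, fun c => ?_⟩
    · change a.2 + b.2 = _
      rw [ha, hb, map_add, corr_add]
    · change (a.1 + b.1) _ = _
      rw [LinearMap.add_apply, ha', hb', extR_add, map_add]
  · rintro Z Z' q a ⟨Δ, ha, ha'⟩
    refine ⟨q • Δ, ?_, fun c => ?_⟩
    · change _ • a.2 = _
      rw [ha, cl_smul, corr_smul]
    · change (q • a.1) _ = _
      rw [LinearMap.smul_apply, ha', extR_smul, map_smul]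
  · intro Z
    refine ⟨dg C Z, (corr_dg 𝓐).symm, fun c => ?_⟩
    rw [extR_dg 𝓐]
    rfl
  · rintro Z Z' Z'' a b ⟨Δ, ha, ha'⟩ ⟨Δ', hb, hb'⟩
    refine ⟨C.comp Δ' Δ, ?_, fun c => ?_⟩
    · change a.2 ∘ₗ b.2 = _
      rw [ha, hb, corr_comp_cl]
    · change a.1 (b.1 _) = _
      rw [hb', ha', extR_comp]
  · intro Z Z'
    have h1 : Prod.snd '' chOps 𝓐 N' Y Z Z' = (corrL W Z Z') '' (Set.range (𝓐.cl (Z.prod Z'))) := by
      ext u
      constructor
      · rintro ⟨a, ⟨Δ, ha, _⟩, rfl⟩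
        exact ⟨𝓐.cl _ Δ, ⟨Δ, rfl⟩, ha.symm⟩
      · rintro ⟨_, ⟨Δ, rfl⟩, rfl⟩
        obtain ⟨f, hf⟩ := exists_op 𝓐 hN' Y Δ
        exact ⟨_, hf, rfl⟩
    rw [h1, ← Submodule.map_span, span_cl]
    rfl

lemma stable_map (hN : IsStable C N) (Y : 𝒱.Obj) :
    Stable (chOps 𝓐 N' Y) (fun Z => (N (Y.prod Z)).map (N' (Y.prod Z)).mkQ) := by
  rintro Z Z' a ⟨Δ, ha, ha'⟩ _ ⟨c, hc, rfl⟩
  rw [ha']
  exact Submodule.mem_map_of_mem (extR_mem hN Δ Y hc)

lemma stable_zero (Y : 𝒱.Obj) : Stable (chOps 𝓐 N' Y) (fun _ => ⊥) := by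
  intro X Z a _ x hx
  rw [(Submodule.mem_bot ℚ).1 hx, map_zero]
  exact Submodule.zero_mem _

/-- Numerically trivial elements give numerically trivial operators, and conversely. -/
lemma numTrivial_iff (a : C.A X) : 𝓐.NumTrivial a ↔ 𝓐.cl X a ∈ (algSys W).Num X := by
  constructor
  · intro h
    refine ⟨cl_alg 𝓐 a, fun d hd => ?_⟩
    have hd' : d ∈ algSpan W X := hd
    rw [← span_cl 𝓐] at hd'
    induction hd' using Submodule.span_induction with
    | mem x hx =>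
      obtain ⟨b, rfl⟩ := hx
      have h1 := h b
      change W.tr X (𝓐.cl X (a * b)) = 0 at h1
      rwa [map_mul] at h1
    | zero => rw [mul_zero, map_zero]
    | add x y hx' hy' hx hy =>
      rw [span_cl] at hx' hy'
      rw [mul_add, map_add, hx hx', hy hy', add_zero]
    | smul c x hx' hx =>
      rw [span_cl] at hx'
      rw [mul_smul_comm, map_smul, hx hx', smul_zero]
  · intro h b
    change W.tr X (𝓐.cl X (a * b)) = 0
    rw [map_mul]
    exact h.2 _ (cl_alg 𝓐 b)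

/-- Powers of operators. -/
lemma pow_op (Y : 𝒱.Obj) {x : Module.End ℚ (Vq N' Y P) × Module.End W.K (W.H P)} {Δ : C.A (P.prod P)}
    (h1 : x.2 = W.corr (𝓐.cl _ Δ))
    (h2 : ∀ c : C.A (Y.prod P), x.1 ((N' (Y.prod P)).mkQ c) = (N' (Y.prod P)).mkQ (C.extR Δ Y c))
    (n : ℕ) : (x.2 ^ n : Module.End W.K (W.H P)) = W.corr (𝓐.cl _ (cpow C Δ n)) ∧
      ∀ c : C.A (Y.prod P), (x.1 ^ n) ((N' (Y.prod P)).mkQ c) =
        (N' (Y.prod P)).mkQ (C.extR (cpow C Δ n) Y c) := by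
  have hI := 𝓐.isTheory
  have hJ := 𝓐.hasIso
  induction n with
  | zero =>
    refine ⟨?_, fun c => ?_⟩
    · rw [pow_zero, cpow, corr_dg]; rfl
    · rw [pow_zero, cpow, extR_dg 𝓐]; rfl
  | succ n ih =>
    refine ⟨?_, fun c => ?_⟩
    · rw [pow_succ', cpow, corr_comp_cl, ← ih.1, ← h1]; rfl
    · rw [pow_succ', cpow, extR_comp, Module.End.mul_apply, ih.2, h2]

lemma pow_eq_zero' (Y : 𝒱.Obj) {x : Module.End ℚ (Vq N' Y P) × Module.End W.K (W.H P)}
    {Δ : C.A (P.prod P)} (h1 : x.2 = W.corr (𝓐.cl _ Δ))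
    (h2 : ∀ c : C.A (Y.prod P), x.1 ((N' (Y.prod P)).mkQ c) = (N' (Y.prod P)).mkQ (C.extR Δ Y c))
    {n : ℕ} (hn : cpow C Δ n = 0) : x.1 ^ n = 0 ∧ x.2 ^ n = 0 := by
  obtain ⟨h3, h4⟩ := pow_op 𝓐 Y h1 h2 n
  refine ⟨?_, ?_⟩
  · apply LinearMap.ext
    intro v
    obtain ⟨c, rfl⟩ := (N' (Y.prod P)).mkQ_surjective v
    rw [h4, hn, extR_zero, map_zero]
    rfl
  · rw [h3, hn, map_zero, corr_zero]

/-- A rational polynomial in an algebraic correspondence is numerically trivial. -/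
lemma exists_poly (Y : 𝒱.Obj)
    {x : Module.End ℚ (Vq N' Y P) × Module.End W.K (W.H P)} (hx : x ∈ chOps 𝓐 N' Y P P) :
    ∃ μ : ℚ[X], μ ≠ 0 ∧ (aeval x.2 (μ.map (algebraMap ℚ W.K)) : Module.End W.K (W.H P)) ∈
      (algSys W).NOp P P := by
  obtain ⟨Δ, h1, h2⟩ := hx
  have hpow := fun n => (pow_op 𝓐 Y h1 h2 n).1
  -- rational spanning set
  have hspan : Submodule.span W.K (Set.range (𝓐.cl (P.prod P))) = algSpan W (P.prod P) :=
    span_cl 𝓐
  obtain ⟨s, hs1, hs2⟩ := Submodule.fg_span_iff_fg_span_finset_subset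
    (Set.range (𝓐.cl (P.prod P))) |>.1 (by
      rw [hspan]; exact IsNoetherian.noetherian _)
  have hs1' : ∀ d ∈ s, ∃ b : C.A (P.prod P), 𝓐.cl _ b = d := fun d hd => hs1 hd
  choose! b hb using hs1'
  -- the rational matrix
  choose q hq using fun (i : Fin (s.card + 1)) (c : s) =>
    tr_rat 𝓐 (C.mul (cpow C Δ i) (b c))
  let f : (Fin (s.card + 1) → ℚ) →ₗ[ℚ] (s → ℚ) :=
    { toFun := fun v c => ∑ i, v i * q i c
      map_add' := fun v w => by
        funext c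
        simp only [Pi.add_apply, add_mul, Finset.sum_add_distrib]
      map_smul' := fun r v => by
        funext c
        simp only [Pi.smul_apply, smul_eq_mul, RingHom.id_apply, Finset.mul_sum, mul_assoc] }
  have hker : ∃ v, v ≠ 0 ∧ f v = 0 := by
    have h3 : ¬ Function.Injective f := by
      intro hinj
      have h4 := LinearMap.finrank_le_finrank_of_injective hinj
      rw [Module.finrank_fin_fun, Module.finrank_fintype_fun_eq_card, Fintype.card_coe] at h4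
      omega
    rw [← LinearMap.ker_eq_bot] at h3
    obtain ⟨v, hv, hv0⟩ := Submodule.exists_mem_ne_zero_of_ne_bot h3
    exact ⟨v, hv0, LinearMap.mem_ker.1 hv⟩
  obtain ⟨v, hv0, hv⟩ := hker
  let μ : ℚ[X] := ∑ i : Fin (s.card + 1), monomial (i : ℕ) (v i)
  have hμ : ∀ i : Fin (s.card + 1), μ.coeff i = v i := by
    intro i
    change (∑ j : Fin (s.card + 1), monomial (j : ℕ) (v j)).coeff i = v i
    rw [finsetSum_coeff, Finset.sum_eq_single i]
    · rw [coeff_monomial, if_pos rfl]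
    · intro j _ hj
      rw [coeff_monomial, if_neg]
      intro h
      exact hj (Fin.ext h)
    · intro h
      exact absurd (Finset.mem_univ i) h
  refine ⟨μ, ?_, ?_⟩
  · intro h0
    apply hv0
    funext i
    rw [← hμ i, h0]
    rfl
  · have h5 : aeval x.2 (μ.map (algebraMap ℚ W.K)) =
        W.corr (𝓐.cl _ (∑ i : Fin (s.card + 1), v i • cpow C Δ i)) := by
      change aeval x.2 ((∑ i : Fin (s.card + 1), monomial (i : ℕ) (v i)).map _) = _
      rw [Polynomial.map_sum, map_sum, map_sum]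
      change _ = corrL W P P _
      rw [map_sum]
      refine Finset.sum_congr rfl fun i _ => ?_
      rw [map_monomial, aeval_monomial, hpow, cl_smul, map_smul, Algebra.smul_def]
      rfl
    rw [h5]
    refine NOp.corr ((numTrivial_iff 𝓐 _).1 ?_)
    rw [numTrivial_iff]
    refine ⟨cl_alg 𝓐 _, fun d hd => ?_⟩
    have hd' : d ∈ Submodule.span W.K (s : Set (W.H (P.prod P))) := by
      rw [← hs2, hspan]; exact hd
    have key : ∀ d ∈ s, W.tr _ (𝓐.cl _ (∑ i : Fin (s.card + 1), v i • cpow C Δ i) * d) = 0 := by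
      intro d hd
      have h6 := hb d hd
      rw [← h6, ← map_mul, Finset.sum_mul, map_sum, map_sum]
      have h7 : ∀ i : Fin (s.card + 1), W.tr _ (𝓐.cl _ (v i • cpow C Δ i * b d)) =
          ((v i * q i ⟨d, hd⟩ : ℚ) : W.K) := by
        intro i
        rw [smul_mul_assoc, cl_smul, map_smul]
        have h8 := hq i ⟨d, hd⟩
        change W.tr _ (𝓐.cl _ (cpow C Δ i * b d)) = _ at h8
        rw [h8, Rat.cast_mul, smul_eq_mul]
        rfl
      rw [Finset.sum_congr rfl fun i _ => h7 i, ← Rat.cast_sum]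
      have h9 : ∑ i, v i * q i ⟨d, hd⟩ = 0 := congrFun hv ⟨d, hd⟩
      rw [h9, Rat.cast_zero]
    induction hd' using Submodule.span_induction with
    | mem x hx => exact key x hx
    | zero => rw [mul_zero, map_zero]
    | add x y hx' hy' hx hy =>
      rw [mul_add, map_add, hx (by rw [← hs2, hspan] at hx'; exact hx'),
        hy (by rw [← hs2, hspan] at hy'; exact hy'), add_zero]
    | smul c x hx' hx =>
      rw [mul_smul_comm, map_smul, hx (by rw [← hs2, hspan] at hx'; exact hx'), smul_zero]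

end Pool.Agent.X312.CH
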