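import Pool.Agent.W492.BB.Defs
import Pool.Agent.H914R2.CorrDefs

/-!
# Rings of algebraic cycles modulo an equivalence relation: definitions
-/

open CategoryTheory AlgebraicGeometry

universe u v w

namespace Pool.Agent.X312.CH

open Pool.Agent.H914 Pool.Agent.H914.VarClass Pool.Agent.H914.VarClass.Obj
  Pool.Agent.H914.WeilCohomology Pool.Agent.W492.BB

variable {k : Type u} [Field k] {𝒱 : VarClass k} {ops : CycleOps 𝒱}

/-- The maps `cl X : A(X) → H(X)` are ring homomorphisms which are compatible with pull-backs and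
push-forwards, and `cl X` maps `A^p(X)` onto the set `alg X p`. -/
structure IsClassMap {A : 𝒱.Obj → Type v} {H : 𝒱.Obj → Type w} [∀ X, Ring (A X)]
    [∀ X, Ring (H X)] (cl : ∀ X : 𝒱.Obj, A X → H X)
    (pullA : ∀ {X Y : 𝒱.Obj}, (X ⟶ Y) → A Y → A X) (pushA : ∀ {X Y : 𝒱.Obj}, (X ⟶ Y) → A X → A Y)
    (pullH : ∀ {X Y : 𝒱.Obj}, (X ⟶ Y) → H Y → H X) (pushH : ∀ {X Y : 𝒱.Obj}, (X ⟶ Y) → H X → H Y)
    (gr : ∀ X : 𝒱.Obj, ℕ → Set (A X)) (alg : ∀ X : 𝒱.Obj, ℕ → Set (H X)) : Prop where
  map_one : ∀ X, cl X 1 = 1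
  map_mul : ∀ X (a b : A X), cl X (a * b) = cl X a * cl X b
  map_zero : ∀ X, cl X 0 = 0
  map_add : ∀ X (a b : A X), cl X (a + b) = cl X a + cl X b
  pull : ∀ {X Y : 𝒱.Obj} (f : X ⟶ Y) (a : A Y), cl X (pullA f a) = pullH f (cl Y a)
  push : ∀ {X Y : 𝒱.Obj} (f : X ⟶ Y) (a : A X), cl Y (pushA f a) = pushH f (cl X a)
  image : ∀ (X : 𝒱.Obj) (p : ℕ), cl X '' gr X p = alg X p

/-- The rings `A(X)` of the theory `C` are the rings of algebraic cycles with rational coefficients
modulo an adequate equivalence relation which is finer than homological equivalence for the Weil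
cohomology theory `W`; for example the Chow rings. Recorded are the formal properties of the Chow
groups (`IsTheory C 1`: grading by the codimension, functoriality of pull-backs and push-forwards,
projection formula, base change along projections of products; moreover commutativity, and
push-forwards along isomorphisms preserve fundamental classes) and the cycle class maps `cl`. The
classes of the elements of `A^p(X)` are exactly the classes of the cycles of codimension `p`. -/
structure CycleTheory (W : WeilCohomology.{u, v} ops) (C : TheoryData.{u, 0, 0} 𝒱 ℚ) where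
  /-- the cycle class map -/
  cl : ∀ X : 𝒱.Obj, C.A X → W.H X
  isTheory : IsTheory C 1
  comm : ∀ {X : 𝒱.Obj} (a b : C.A X), C.mul a b = C.mul b a
  push_iso : ∀ {X Y : 𝒱.Obj} (f : X ⟶ Y) (g : Y ⟶ X), f ≫ g = 𝟙 X → g ≫ f = 𝟙 Y →
    C.down f 1 = 1
  isClassMap : IsClassMap cl (fun f => C.up f) (fun f => C.down f) (fun f => W.map f)
    (fun f => W.push f) (fun X p => {a | C.Deg p a})
    (fun X p => {c | ∃ z : X.Cycles, X.IsCyc p z ∧ W.cl X z = c})

/-- The composition of correspondences. -/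
noncomputable def ccomp (C : TheoryData.{u, 0, 0} 𝒱 ℚ) {X Y Z : 𝒱.Obj} (Γ : C.A (X.prod Y))
    (Δ : C.A (Y.prod Z)) : C.A (X.prod Z) :=
  C.down (p13 X Y Z) (C.mul (C.up (p12 X Y Z) Γ) (C.up (p23 X Y Z) Δ))

/-- The powers `1, γ, γ ∘ γ, …` of a self-correspondence for the composition. -/
noncomputable def ccpow (C : TheoryData.{u, 0, 0} 𝒱 ℚ) {X : 𝒱.Obj} (γ : C.A (X.prod X)) :
    ℕ → C.A (X.prod X)
  | 0 => C.down (diag X) 1
  | n + 1 => ccomp C (ccpow C γ n) γ

variable {W : WeilCohomology.{u, v} ops} {C : TheoryData.{u, 0, 0} 𝒱 ℚ}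

/-- The element `a` of `A(X)` is numerically trivial. -/
def CycleTheory.NumTriv (𝓣 : CycleTheory W C) {X : 𝒱.Obj} (a : C.A X) : Prop :=
  ∀ b : C.A X, W.tr X (𝓣.cl X (C.mul a b)) = 0

/-- The numerically trivial self-correspondences of `X` (sums of correspondences of arbitrary degrees)
are nilpotent. -/
def CycleTheory.NumNil (𝓣 : CycleTheory W C) (X : 𝒱.Obj) : Prop :=
  ∀ γ : C.A (X.prod X), 𝓣.NumTriv γ → ∃ n, ccpow C γ n = 0

/-- The set `S` contains at least `x` linearly independent elements. -/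
def HasIndep {M : Type w} [AddCommGroup M] [Module ℚ M] (S : Set M) (x : ℝ) : Prop :=
  ∃ (N : ℕ) (a : Fin N → M), x ≤ N ∧ LinearIndependent ℚ a ∧ ∀ i, a i ∈ S

end Pool.Agent.X312.CH
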