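import Pool.Agent.X312.CH.Mod

/-!
# Module theories over rings of cycles
-/

open CategoryTheory AlgebraicGeometry

universe u v

namespace Pool.Agent.X312.CH

open Pool.Agent.H914 Pool.Agent.H914.VarClass Pool.Agent.H914.VarClass.Obj
open Pool.Agent.W492.BB (TheoryData IsTheory prodMap u12 u13 t13 t23 prodMap_snd)
open Pool.Agent.W550.Corr

variable {k : Type u} [Field k] {𝒱 : VarClass k}

/-- The data of a module theory over the rings of cycles `A(X)` of the theory `C`: rational vector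
spaces `M(X)` with products `A(X) × M(X) → M(X)`, pull-backs and push-forwards. -/
structure ModTheory (C : TheoryData.{u, 0, 0} 𝒱 ℚ) where
  /-- the vector space `M(X)` -/
  M : 𝒱.Obj → Type
  [grp : ∀ X, AddCommGroup (M X)]
  [mod : ∀ X, Module ℚ (M X)]
  /-- the product with a cycle -/
  smul : ∀ {X : 𝒱.Obj}, C.A X →ₗ[ℚ] M X →ₗ[ℚ] M X
  /-- pull-back -/
  pull : ∀ {X Y : 𝒱.Obj}, (X ⟶ Y) → (M Y →ₗ[ℚ] M X)
  /-- push-forward -/
  push : ∀ {X Y : 𝒱.Obj}, (X ⟶ Y) → (M X →ₗ[ℚ] M Y)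

attribute [instance] ModTheory.grp ModTheory.mod

/-- The formal properties of a module theory: the `M(X)` are modules over the rings of cycles
`A(X)`, pull-backs and push-forwards are functorial and satisfy the projection formulas and base
change along the projections of products. Examples: the rings of cycles themselves, the rational
higher Chow groups, rational motivic cohomology, rational `K`-theory (with push-forwards
normalised by the Riemann-Roch theorem), and all cohomology theories with cycle classes. -/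
structure ModTheory.IsLawful {C : TheoryData.{u, 0, 0} 𝒱 ℚ} (T : ModTheory C) : Prop where
  one_smul : ∀ {X : 𝒱.Obj} (x : T.M X), T.smul (1 : C.A X) x = x
  mul_smul : ∀ {X : 𝒱.Obj} (a b : C.A X) (x : T.M X), T.smul (C.mul a b) x = T.smul a (T.smul b x)
  pull_id : ∀ {X : 𝒱.Obj} (x : T.M X), T.pull (𝟙 X) x = x
  pull_comp : ∀ {X Y Z : 𝒱.Obj} (f : X ⟶ Y) (g : Y ⟶ Z) (x : T.M Z),
    T.pull (f ≫ g) x = T.pull f (T.pull g x)
  push_id : ∀ {X : 𝒱.Obj} (x : T.M X), T.push (𝟙 X) x = x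
  push_comp : ∀ {X Y Z : 𝒱.Obj} (f : X ⟶ Y) (g : Y ⟶ Z) (x : T.M X),
    T.push (f ≫ g) x = T.push g (T.push f x)
  pull_smul : ∀ {X Y : 𝒱.Obj} (f : X ⟶ Y) (a : C.A Y) (x : T.M Y),
    T.pull f (T.smul a x) = T.smul (C.up f a) (T.pull f x)
  proj : ∀ {X Y : 𝒱.Obj} (f : X ⟶ Y) (a : C.A Y) (x : T.M X),
    T.push f (T.smul (C.up f a) x) = T.smul a (T.push f x)
  proj' : ∀ {X Y : 𝒱.Obj} (f : X ⟶ Y) (a : C.A X) (x : T.M Y),
    T.push f (T.smul a (T.pull f x)) = T.smul (C.down f a) x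
  base_fst : ∀ {X Y : 𝒱.Obj} (f : X ⟶ Y) (Z : 𝒱.Obj) (x : T.M X),
    T.pull (fst Y Z) (T.push f x) = T.push (prodMap f (𝟙 Z)) (T.pull (fst X Z) x)
  base_snd : ∀ {X Y : 𝒱.Obj} (f : X ⟶ Y) (Z : 𝒱.Obj) (x : T.M X),
    T.pull (snd Z Y) (T.push f x) = T.push (prodMap (𝟙 Z) f) (T.pull (snd Z X) x)

/-- The action `x ↦ (1 × Γ)_* x`, `M(Y × Z) → M(Y × Z')`, of a correspondence `Γ` on `Z × Z'`. -/
noncomputable def ModTheory.corr {C : TheoryData.{u, 0, 0} 𝒱 ℚ} (T : ModTheory C) {Z Z' : 𝒱.Obj}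
    (Γ : C.A (Z.prod Z')) (Y : 𝒱.Obj) (x : T.M (Y.prod Z)) : T.M (Y.prod Z') :=
  T.push (u13 Y Z Z') (T.smul (C.up (snd Y (Z.prod Z')) Γ) (T.pull (u12 Y Z Z') x))

section

variable {C : TheoryData.{u, 0, 0} 𝒱 ℚ} [hT : IsTheory C 1] [hI : HasIso C] {T : ModTheory C}
  (hM : T.IsLawful) {W X Y Z V : 𝒱.Obj}

include hM

lemma mpush_pull_iso (f : X ⟶ Y) (g : Y ⟶ X) (h1 : f ≫ g = 𝟙 X) (h2 : g ≫ f = 𝟙 Y) (b : T.M Y) :
    T.push f (T.pull f b) = b := by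
  have := hM.proj' f 1 b
  rw [hM.one_smul] at this
  rw [this]
  have h3 : C.push f 1 = 1 := hI.push_one f g h1 h2
  change T.smul (C.push f 1) b = b
  rw [h3, hM.one_smul]

lemma mpull_iso (f : X ⟶ Y) (g : Y ⟶ X) (h1 : f ≫ g = 𝟙 X) (h2 : g ≫ f = 𝟙 Y) (b : T.M Y) :
    T.pull f b = T.push g b := by
  have h3 := mpush_pull_iso hM f g h1 h2 b
  have h4 : T.push g (T.push f (T.pull f b)) = T.push g b := by rw [h3]
  rw [← hM.push_comp, h1, hM.push_id] at h4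
  exact h4

lemma mpush_model (f : X ⟶ Y) (g : Y ⟶ X) (h1 : f ≫ g = 𝟙 X) (h2 : g ≫ f = 𝟙 Y) (q : Y ⟶ Z)
    (b : T.M Y) : T.push q b = T.push (f ≫ q) (T.pull f b) := by
  rw [hM.push_comp, mpush_pull_iso hM f g h1 h2]

lemma mbase_u12 (G : T.M (V.prod (X.prod Y))) :
    T.pull (u12 V Y Z) (T.push (u13 V X Y) G) =
      T.push (prodMap (𝟙 V) (t23 X Y Z)) (T.pull (prodMap (𝟙 V) (fst (X.prod Y) Z)) G) := by
  have e1 : u12 V Y Z = aJ V Y Z ≫ fst (V.prod Y) Z := by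
    apply prod_ext <;> simp [aJ, u12, comp_lift]
  rw [e1, hM.pull_comp, hM.base_fst, mpull_iso hM (aJ V Y Z) (aI V Y Z) aJ_aI aI_aJ,
    ← hM.push_comp, mpush_model hM (aJ V (X.prod Y) Z) (aI V (X.prod Y) Z) aJ_aI aI_aJ,
    ← hM.pull_comp]
  have e2 : aJ V (X.prod Y) Z ≫ fst (V.prod (X.prod Y)) Z = prodMap (𝟙 V) (fst (X.prod Y) Z) := by
    apply prod_ext <;> simp [aJ, comp_lift]
  have e3 : aJ V (X.prod Y) Z ≫ prodMap (u13 V X Y) (𝟙 Z) ≫ aI V Y Z =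
      prodMap (𝟙 V) (t23 X Y Z) := by
    apply prod_ext
    · simp [aJ, aI, u13, t23, comp_lift]
    · apply prod_ext <;> simp [aJ, aI, u13, t23, comp_lift]
  rw [e2, e3]

lemma corr_comp_m (Δ : C.A (X.prod Y)) (Θ : C.A (Y.prod Z)) (c : T.M (V.prod X)) :
    T.corr (C.comp Δ Θ) V c = T.corr Θ V (T.corr Δ V c) := by
  have h1 : T.corr Θ V (T.corr Δ V c) = T.push (u13 V Y Z) (T.smul (C.pull (snd V (Y.prod Z)) Θ)
      (T.pull (u12 V Y Z) (T.push (u13 V X Y) (T.smul (C.pull (snd V (X.prod Y)) Δ)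
        (T.pull (u12 V X Y) c))))) := rfl
  have h2 : T.corr (C.comp Δ Θ) V c = T.push (u13 V X Z) (T.smul (C.pull (snd V (X.prod Z))
      (C.push (t13 X Y Z) (C.pull (t23 X Y Z) Θ * C.pull (fst (X.prod Y) Z) Δ)))
        (T.pull (u12 V X Z) c)) := rfl
  have e1 : prodMap (𝟙 V) (t13 X Y Z) ≫ u13 V X Z = prodMap (𝟙 V) (t23 X Y Z) ≫ u13 V Y Z := by
    apply prod_ext <;> simp [u13, t13, t23]
  have e2 : prodMap (𝟙 V) (t13 X Y Z) ≫ u12 V X Z =
      prodMap (𝟙 V) (fst (X.prod Y) Z) ≫ u12 V X Y := by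
    apply prod_ext <;> simp [u12, t13]
  have e3 : prodMap (𝟙 V) (t23 X Y Z) ≫ snd V (Y.prod Z) =
      snd V ((X.prod Y).prod Z) ≫ t23 X Y Z := prodMap_snd _ _
  have e4 : prodMap (𝟙 V) (fst (X.prod Y) Z) ≫ snd V (X.prod Y) =
      snd V ((X.prod Y).prod Z) ≫ fst (X.prod Y) Z := prodMap_snd _ _
  rw [h1, h2, mbase_u12 hM, C.base_snd]
  have p1 := hM.proj (prodMap (𝟙 V) (t23 X Y Z)) (C.pull (snd V (Y.prod Z)) Θ)
    (T.pull (prodMap (𝟙 V) (fst (X.prod Y) Z)) (T.smul (C.pull (snd V (X.prod Y)) Δ)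
        (T.pull (u12 V X Y) c)))
  have p2 := hM.proj' (prodMap (𝟙 V) (t13 X Y Z)) (C.pull (snd V ((X.prod Y).prod Z))
    (C.pull (t23 X Y Z) Θ * C.pull (fst (X.prod Y) Z) Δ)) (T.pull (u12 V X Z) c)
  change _ = T.smul (C.push _ _) _ at p2
  rw [← p1, ← p2, ← hM.push_comp, ← hM.push_comp, map_mul (C.pull (snd V ((X.prod Y).prod Z)))]
  have p3 := hM.mul_smul (C.pull (snd V ((X.prod Y).prod Z)) (C.pull (t23 X Y Z) Θ))
    (C.pull (snd V ((X.prod Y).prod Z)) (C.pull (fst (X.prod Y) Z) Δ))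
    (T.pull (prodMap (𝟙 V) (t13 X Y Z)) (T.pull (u12 V X Z) c))
  change T.smul (_ * _) _ = _ at p3
  rw [p3, hM.pull_smul]
  change _ = T.push _ (T.smul (C.pull _ _) (T.smul (C.pull _ _) _))
  rw [← C.pull_comp, ← C.pull_comp, ← C.pull_comp, ← C.pull_comp, ← hM.pull_comp,
    ← hM.pull_comp, e1, e2, e3, e4]

omit hI in
lemma corr_graph_m (f : X ⟶ Y) (c : T.M (V.prod X)) :
    T.corr (C.graph f) V c = T.push (prodMap (𝟙 V) f) c := by
  have h0 : T.corr (C.graph f) V c = T.push (u13 V X Y) (T.smul (C.pull (snd V (X.prod Y))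
    (C.push (Obj.lift (𝟙 X) f) 1)) (T.pull (u12 V X Y) c)) := rfl
  rw [h0, C.base_snd]
  have p2 := hM.proj' (prodMap (𝟙 V) (Obj.lift (𝟙 X) f)) (C.pull (snd V X) 1)
    (T.pull (u12 V X Y) c)
  change _ = T.smul (C.push _ _) _ at p2
  rw [← p2, ← hM.push_comp, map_one, hM.one_smul, ← hM.pull_comp]
  have e1 : prodMap (𝟙 V) (Obj.lift (𝟙 X) f) ≫ u12 V X Y = 𝟙 _ := by
    apply prod_ext <;> simp [u12]
  have e2 : prodMap (𝟙 V) (Obj.lift (𝟙 X) f) ≫ u13 V X Y = prodMap (𝟙 V) f := by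
    apply prod_ext <;> simp [u13]
  rw [e1, e2, hM.pull_id]

omit hI in
lemma corr_dg_m (c : T.M (V.prod X)) : T.corr (dg C X) V c = c := by
  rw [dg, corr_graph_m hM]
  have e1 : prodMap (𝟙 V) (𝟙 X) = 𝟙 _ := by
    apply prod_ext <;> simp
  rw [e1, hM.push_id]

end

section

variable {C : TheoryData.{u, 0, 0} 𝒱 ℚ} {T : ModTheory C} {X Z : 𝒱.Obj}

lemma corr_add_m (Δ Δ' : C.A (X.prod Z)) (Y : 𝒱.Obj) (c : T.M (Y.prod X)) :
    T.corr (Δ + Δ') Y c = T.corr Δ Y c + T.corr Δ' Y c := by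
  change T.push _ (T.smul (C.pull _ (Δ + Δ')) _) = _
  rw [map_add, map_add, LinearMap.add_apply, map_add]; rfl

lemma corr_smul_m (q : ℚ) (Δ : C.A (X.prod Z)) (Y : 𝒱.Obj) (c : T.M (Y.prod X)) :
    T.corr (q • Δ) Y c = q • T.corr Δ Y c := by
  change T.push _ (T.smul (C.pull _ (q • Δ)) _) = _
  rw [map_smul, map_smul, LinearMap.smul_apply, map_smul]; rfl

lemma corr_zero_m (Y : 𝒱.Obj) (c : T.M (Y.prod X)) :
    T.corr (0 : C.A (X.prod Z)) Y c = 0 := by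
  change T.push _ (T.smul (C.pull _ 0) _) = _
  rw [map_zero, map_zero, LinearMap.zero_apply, map_zero]

/-- The action of a correspondence as a linear map. -/
noncomputable def ModTheory.corrL (T : ModTheory C) (Γ : C.A (X.prod Z)) (Y : 𝒱.Obj) :
    T.M (Y.prod X) →ₗ[ℚ] T.M (Y.prod Z) :=
  T.push (u13 Y X Z) ∘ₗ T.smul (C.up (snd Y (X.prod Z)) Γ) ∘ₗ T.pull (u12 Y X Z)

lemma corrL_apply_m (Γ : C.A (X.prod Z)) (Y : 𝒱.Obj) (x : T.M (Y.prod X)) :
    T.corrL Γ Y x = T.corr Γ Y x := rfl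

end

/-- The theory `C` as a module theory over itself. -/
noncomputable def selfMod (C : TheoryData.{u, 0, 0} 𝒱 ℚ) : ModTheory C where
  M := C.A
  smul := LinearMap.mul ℚ _
  pull f := (C.pull f).toLinearMap
  push f := C.push f

lemma selfMod_lawful (C : TheoryData.{u, 0, 0} 𝒱 ℚ) [hT : IsTheory C 1] :
    (selfMod C).IsLawful where
  one_smul {X} x := one_mul (M := C.A X) x
  mul_smul {X} a b x := mul_assoc (G := C.A X) a b x
  pull_id {X} x := C.pull_id (X := X) x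
  pull_comp {X Y Z} f g x := C.pull_comp f g (x : C.A Z)
  push_id {X} x := C.push_id (X := X) x
  push_comp {X Y Z} f g x := C.push_comp f g (x : C.A X)
  pull_smul {X Y} f a x := map_mul (C.pull f) a (x : C.A Y)
  proj {X Y} f a x := C.proj_left f (x : C.A X) a
  proj' {X Y} f a x := C.proj_right f a (x : C.A Y)
  base_fst {X Y} f Z x := C.base_fst f Z (x : C.A X)
  base_snd {X Y} f Z x := C.base_snd f Z (x : C.A X)

end Pool.Agent.X312.CH
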